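import Pool.Agent.Torelli.PG.Loop
import Pool.Agent.Torelli.Fin.Cnt

/-!
# Torelli project, part PG: the statement used by the counting part
-/

set_option autoImplicit false

namespace Pool.Agent.Torelli

open Pool.Agent.Torelli.PG

theorem pgStmt : PGStmt := by
  intro s h hh
  have hlen : (Slt h).length = 2 * h ^ 2 + h := length_Slt (by omega)
  have hfr : ∀ i : Fin (2 * h ^ 2 + h), ∃ θ ∈ M s h, ∀ t p q,
      (Slt h)[(Fin.cast hlen.symm i)] = (t, p, q) →
      cj θ (eI s 1) = plp t (sg s h p) (sg s h q) := by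
    intro i
    rcases hx : (Slt h)[(Fin.cast hlen.symm i)] with ⟨t, p, q⟩
    have hmem : (t, p, q) ∈ Slt h := by rw [← hx]; exact List.getElem_mem _
    obtain ⟨θ, hθ, h1⟩ := Slt_frame (s := s) hh hmem
    refine ⟨θ, hθ, fun t' p' q' e => ?_⟩
    simp only [Prod.mk.injEq] at e
    obtain ⟨rfl, rfl, rfl⟩ := e
    exact h1
  choose θ hθ h1 using hfr
  refine ⟨fun i => θ i (H s), fun i => ⟨θ i, hθ i, rfl⟩, ?_⟩
  intro D hD hz hL
  refine pg_strong hh D hD hz ?_
  intro t p q hx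
  obtain ⟨n, hn, e⟩ := List.mem_iff_getElem.mp hx
  refine ⟨θ ⟨n, hlen ▸ hn⟩, hθ _, h1 _ t p q ?_, hL _⟩
  exact e

end Pool.Agent.Torelli
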