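import Pool.Agent.Torelli.PG.Loop

/-!
# Torelli project, part TYPE
-/

set_option autoImplicit false

namespace Pool.Agent.Torelli.PG

open Pool.Agent.Torelli

theorem act_S_ea (s : ℕ) : act (S s) (ea s) = ea (s + 1) := by rw [act_ea, S_a0, clv_a]

theorem act_S_eb (s : ℕ) : act (S s) (eb s) = eb (s + 1) := by rw [act_eb, S_b0, clv_b]

section
variable {s h : ℕ} {D : Subgroup F}

theorem M_fix_a {γ : MulAut F} (hγ : γ ∈ M (s + 1) (h - 1)) : γ (a s) = a s :=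
  M_fix_FS hγ (s' := s) (h' := 1) (Or.inl le_rfl) (a_mem_FS le_rfl (by omega))

/-- type (0,1) -/
theorem type01 (hh : 3 ≤ h) (hD2 : ∀ γ ∈ M s h, γ (a s) = a s → ∀ x ∈ D, γ x ∈ D)
    (hH1 : H (s + 1) ∈ D) {u v : Lat} (hu : u ∈ Vs (s + 1) (h - 1)) (hv : v ∈ Vs (s + 1) (h - 1))
    (huv : om u v = 1) : ∃ θ ∈ M s h, cj θ (eI s 1) = pr u v ∧ θ (H s) ∈ D := by
  have hps : PartSymp (s + 1) (h - 1) 1 (fun _ => u) (fun _ => v) :=
    ⟨fun _ _ => hu, fun _ _ => hv, fun _ _ _ _ => om_self u, fun _ _ _ _ => om_self v,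
      fun i hi j hj => by rw [huv, if_pos (by omega)]⟩
  obtain ⟨γ, hγ, h1⟩ := SP2 1 (s + 1) (h - 1) _ _ hps
  have h2 := h1 0 (by omega)
  rw [add_zero] at h2
  have hγM : γ ∈ M s h := M_mono (by omega) (by omega) hγ
  have hS : S s ∈ M s h := S_mem s h (by omega)
  have hθ : γ * S s ∈ M s h := mul_mem hγM hS
  refine ⟨γ * S s, hθ, ?_, ?_⟩
  · rw [eI_one, cj_pr (M_PresOm hθ), act_mul, act_mul, act_S_ea, act_S_eb, h2.1, h2.2]
  · rw [MulAut.mul_apply]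
    have e : S s (H s) = H (s + 1) := by simp only [H, map_mul, map_inv, S_a0, S_b0]
    rw [e]
    exact hD2 γ hγM (M_fix_a hγ) _ hH1

/-- type (1,0) -/
theorem type10 (hh : 3 ≤ h) (hD2 : ∀ γ ∈ M s h, γ (a s) = a s → ∀ x ∈ D, γ x ∈ D)
    (hH : H s ∈ D) {v : Lat} (hv : v ∈ Vs s h) (huv : om (ea s) v = 1) :
    ∃ θ ∈ M s h, cj θ (eI s 1) = pr (ea s) v ∧ θ (H s) ∈ D := by
  obtain ⟨m, hm, e1, e2⟩ := SP_push (show 1 ≤ h by omega) hv huv
  have hmM : m ∈ M s h := Ma_le_M (by omega) hm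
  refine ⟨m, hmM, ?_, hD2 m hmM (Ma_fix_a hm) _ hH⟩
  rw [eI_one, cj_pr (M_PresOm hmM), e2, Ma_fix_ea hm]

/-- type (1,1) -/
theorem type11 (hh : 3 ≤ h) (hD2 : ∀ γ ∈ M s h, γ (a s) = a s → ∀ x ∈ D, γ x ∈ D)
    (h3 : (w s * P s * (w s)⁻¹) (H s) ∈ D) {z : Lat} (hz : PrimV (s + 1) (h - 1) z) :
    ∃ θ ∈ M s h, cj θ (eI s 1) = pr (ea s + z) (eb s) ∧ θ (H s) ∈ D := by
  obtain ⟨hzV, z', hz', e0⟩ := hz
  obtain ⟨γ, hγ, h1⟩ := SP1 (s := s + 1) (h := h - 1) (v := -z)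
    ⟨neg_mem hzV, -z', neg_mem hz', by simp [e0]⟩
  have hγM : γ ∈ M s h := M_mono (by omega) (by omega) hγ
  have hw : w s ∈ M s h := w_mem_M le_rfl (by omega)
  have hP : P s ∈ M s h := P_mem_M le_rfl (by omega)
  have hθ : γ * (w s * P s * (w s)⁻¹) ∈ M s h :=
    mul_mem hγM (mul_mem (mul_mem hw hP) (inv_mem hw))
  have w1 : act (w s)⁻¹ (eb s) = - ea s := by
    rw [act_eq_iff, inv_inv, map_neg, act_w_ea, neg_neg]
  have w2 : act (w s)⁻¹ (ea s) = eb s + ea s := by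
    rw [act_eq_iff, inv_inv, map_add, act_w_ea, act_w_eb]; abel
  have p1 : act (P s) (ea s) = ea s := by rw [act_P]; simp [ea_odd]
  have p2 : act (P s) (eb s) = eb s - ea (s + 1) := by rw [act_P]; simp [eb_odd]
  have e1 : act (w s * P s * (w s)⁻¹) (ea s) = ea s - ea (s + 1) := by
    have hw1 : act (w s) (ea (s + 1)) = ea (s + 1) :=
      M_fix_ea (w_mem_M (s := s) (h := 1) le_rfl (by omega)) (by omega)
    rw [act_mul, act_mul, w2, map_add, p1, p2, map_add, map_sub, act_w_ea, act_w_eb, hw1]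
    abel
  have e2 : act (w s * P s * (w s)⁻¹) (eb s) = eb s := by
    rw [act_mul, act_mul, w1, map_neg, p1, map_neg, act_w_ea, neg_neg]
  refine ⟨γ * (w s * P s * (w s)⁻¹), hθ, ?_, ?_⟩
  · rw [eI_one, cj_pr (M_PresOm hθ), act_mul γ, act_mul γ, e1, e2, map_sub, h1,
      M_fix_ea hγ (by omega), M_fix_eb hγ (by omega), sub_neg_eq_add]
  · rw [MulAut.mul_apply]
    exact hD2 γ hγM (M_fix_a hγ) _ h3

theorem zeta_mem_of (hh : 3 ≤ h) (hD2 : ∀ γ ∈ M s h, γ (a s) = a s → ∀ x ∈ D, γ x ∈ D)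
    (hH : H s ∈ D) (hH1 : H (s + 1) ∈ D) : zeta s h ∈ D := by
  have key : ∀ k, k ≤ h - 1 → zeta (s + 1) k ∈ D := by
    intro k
    induction k with
    | zero => intro _; rw [zeta_zero]; exact one_mem _
    | succ k ih =>
      intro hk
      rw [zeta_succ]
      refine mul_mem (ih (by omega)) ?_
      obtain ⟨τ, hτ, e1, e2⟩ := move_one (s + 1) k
      have hτ1 : τ ∈ M (s + 1) (h - 1) := M_mono le_rfl (by omega) hτ
      have hτM : τ ∈ M s h := M_mono (by omega) (by omega) hτ1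
      have e : τ (H (s + 1)) = H (s + 1 + k) := by
        simp only [H, map_mul, map_inv, e1, e2]
      rw [← e]
      exact hD2 τ hτM (M_fix_a hτ1) _ hH1
  obtain ⟨g, rfl⟩ : ∃ g, h = g + 1 := ⟨h - 1, by omega⟩
  rw [zeta_succ']
  exact mul_mem hH (key g (by omega))

theorem sg_lt {h j : ℕ} (s : ℕ) (hj : j < h - 1) : sg s h j = s + 1 + j := by
  unfold sg; rw [if_neg (by omega)]

theorem sg_last (s h : ℕ) : sg s h (h - 1) = s := by unfold sg; rw [if_pos rfl]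

theorem pl_mem1 (t : Ty) {i j : ℕ} (hi : i < h - 1) (hj : j < h - 1) :
    (pl t (sg s h i) (sg s h j)).1 ∈ Vs (s + 1) (h - 1) ∧
      (pl t (sg s h i) (sg s h j)).2 ∈ Vs (s + 1) (h - 1) := by
  rw [sg_lt s hi, sg_lt s hj]
  exact pl_mem t (by omega) (by omega)

theorem prim_ea {k : ℕ} (h1 : s + 1 ≤ k) (h2 : k < s + 1 + (h - 1)) :
    PrimV (s + 1) (h - 1) (ea k) :=
  ⟨ea_mem_Vs h1 h2, eb k, eb_mem_Vs h1 h2, by rw [om_ea_eb, if_pos rfl]⟩

theorem prim_eb {k : ℕ} (h1 : s + 1 ≤ k) (h2 : k < s + 1 + (h - 1)) :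
    PrimV (s + 1) (h - 1) (eb k) :=
  ⟨eb_mem_Vs h1 h2, - ea k, neg_mem (ea_mem_Vs h1 h2), by
    rw [map_neg, om_swap, om_ea_eb, if_pos rfl]; simp⟩

theorem prim_eab {k : ℕ} (h1 : s + 1 ≤ k) (h2 : k < s + 1 + (h - 1)) :
    PrimV (s + 1) (h - 1) (ea k + eb k) :=
  ⟨add_mem (ea_mem_Vs h1 h2) (eb_mem_Vs h1 h2), eb k, eb_mem_Vs h1 h2, by
    rw [map_add, AddMonoidHom.add_apply, om_ea_eb, if_pos rfl, om_eb_eb, add_zero]⟩

/-- **TYPE.** -/
theorem type_thm (hh : 3 ≤ h) (hD : ∀ ψ ∈ Tor s h, ∀ x ∈ D, ψ x ∈ D)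
    (hD2 : ∀ γ ∈ M s h, γ (a s) = a s → ∀ x ∈ D, γ x ∈ D) (hH : H s ∈ D) (hH1 : H (s + 1) ∈ D)
    (h3 : (w s * P s * (w s)⁻¹) (H s) ∈ D) : Delta s h ≤ D := by
  refine pg_strong hh D hD (zeta_mem_of hh hD2 hH hH1) ?_
  intro t i j hx
  -- everything in the handles `≥ s+1`
  have low : ∀ (t : Ty) (i j : ℕ), i < h - 1 → j < h - 1 → i ≠ j →
      ∃ θ ∈ M s h, cj θ (eI s 1) = plp t (sg s h i) (sg s h j) ∧ θ (H s) ∈ D := by
    intro t i j hi hj hij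
    have h1 := pl_mem1 (s := s) t hi hj
    refine type01 hh hD2 hH1 h1.1 h1.2 (om_pl t ?_)
    rw [sg_lt s hi, sg_lt s hj]; omega
  rcases mem_Slt hx with ⟨i', hi', e⟩ | ⟨i', j', h1, h2, e⟩ | ⟨j', h1, h2, e⟩ | e | e | e
  · simp only [Prod.mk.injEq] at e
    obtain ⟨rfl, rfl, rfl⟩ := e
    have hr : s + 1 ≤ sg s h i ∧ sg s h i < s + 1 + (h - 1) := by rw [sg_lt s hi']; omega
    refine type01 hh hD2 hH1 (ea_mem_Vs hr.1 hr.2) (eb_mem_Vs hr.1 hr.2) ?_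
    show om (ea (sg s h i)) (eb (sg s h i)) = 1
    rw [om_ea_eb, if_pos rfl]
  · rcases Nat.lt_or_ge j' (h - 1) with hj | hj
    · rcases e with e | e | e | e <;> simp only [Prod.mk.injEq] at e <;>
        obtain ⟨rfl, rfl, rfl⟩ := e <;> exact low _ _ _ hj (by omega) (by omega)
    · have hj' : j' = h - 1 := by omega
      subst hj'
      have hr : s + 1 ≤ sg s h i' ∧ sg s h i' < s + 1 + (h - 1) := by rw [sg_lt s h1]; omega
      have hr' : s ≤ sg s h i' ∧ sg s h i' < s + h := by omega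
      have hb : eb s ∈ Vs s h := eb_mem_Vs le_rfl (by omega)
      have hne : s ≠ sg s h i' := by omega
      rcases e with e | e | e | e <;> simp only [Prod.mk.injEq] at e <;>
        obtain ⟨rfl, rfl, rfl⟩ := e <;> rw [sg_last]
      · exact type11 hh hD2 h3 (prim_ea hr.1 hr.2)
      · exact type11 hh hD2 h3 (prim_eb hr.1 hr.2)
      · exact type10 hh hD2 hH (add_mem hb (ea_mem_Vs hr'.1 hr'.2)) (om_pl .YA hne)
      · exact type10 hh hD2 hH (add_mem hb (eb_mem_Vs hr'.1 hr'.2)) (om_pl .YB hne)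
  · rcases Nat.lt_or_ge j' (h - 1) with hj | hj
    · rcases e with e | e <;> simp only [Prod.mk.injEq] at e <;>
        obtain ⟨rfl, rfl, rfl⟩ := e <;> exact low _ _ _ hj (by omega) (by omega)
    · have hj' : j' = h - 1 := by omega
      subst hj'
      have h0 : 0 < h - 1 := by omega
      have hr : s + 1 ≤ sg s h 0 ∧ sg s h 0 < s + 1 + (h - 1) := by rw [sg_lt s h0]; omega
      have hr' : s ≤ sg s h 0 ∧ sg s h 0 < s + h := by omega
      have hb : eb s ∈ Vs s h := eb_mem_Vs le_rfl (by omega)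
      have hne : s ≠ sg s h 0 := by omega
      rcases e with e | e <;> simp only [Prod.mk.injEq] at e <;>
        obtain ⟨rfl, rfl, rfl⟩ := e <;> rw [sg_last]
      · exact type11 hh hD2 h3 (prim_eab hr.1 hr.2)
      · exact type10 hh hD2 hH
          (add_mem hb (add_mem (ea_mem_Vs hr'.1 hr'.2) (eb_mem_Vs hr'.1 hr'.2))) (om_pl .YC hne)
  all_goals
    simp only [Prod.mk.injEq] at e
    obtain ⟨rfl, rfl, rfl⟩ := e
    exact low _ _ _ (by omega) (by omega) (by omega)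

end

end Pool.Agent.Torelli.PG
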