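import Pool.Agent.Torelli.G.Main
import Pool.Agent.Torelli.PG.Type

/-!
# Torelli project: `TypeStmt`
-/

set_option autoImplicit false

namespace Pool.Agent.Torelli

theorem typeStmt : TypeStmt := fun _ _ hh _ h1 h2 h3 h4 h5 => PG.type_thm hh h1 h2 h3 h4 h5

end Pool.Agent.Torelli
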