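import Mathlib

/-!
# Torelli project, part PG: vectors with six integer coordinates

`V6.complete`: three mutually orthogonal symplectic pairs in `ℤ⁶` form a basis.
-/

set_option autoImplicit false

namespace Pool.Agent.Torelli.PG

/-- vectors with six integer coordinates -/
@[ext] structure V6 where
  x0 : ℤ
  x1 : ℤ
  x2 : ℤ
  x3 : ℤ
  x4 : ℤ
  x5 : ℤ
deriving DecidableEq

/-- the symplectic form on `V6` -/
def om6 (u v : V6) : ℤ :=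
  u.x0 * v.x1 - u.x1 * v.x0 + (u.x2 * v.x3 - u.x3 * v.x2) + (u.x4 * v.x5 - u.x5 * v.x4)

theorem om6_skew (u v : V6) : om6 u v = -om6 v u := by unfold om6; ring

theorem om6_self (u : V6) : om6 u u = 0 := by unfold om6; ring

/-- a pair of vectors -/
abbrev P6 := V6 × V6

/-- orthogonality of pairs -/
def orth6 (p q : P6) : Prop :=
  om6 p.1 q.1 = 0 ∧ om6 p.1 q.2 = 0 ∧ om6 p.2 q.1 = 0 ∧ om6 p.2 q.2 = 0

/-- `pr6 p x = om6 x p.2 • p.1 - om6 x p.1 • p.2` -/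
def pr6 (p : P6) (x : V6) : V6 :=
  ⟨om6 x p.2 * p.1.x0 - om6 x p.1 * p.2.x0, om6 x p.2 * p.1.x1 - om6 x p.1 * p.2.x1,
    om6 x p.2 * p.1.x2 - om6 x p.1 * p.2.x2, om6 x p.2 * p.1.x3 - om6 x p.1 * p.2.x3,
    om6 x p.2 * p.1.x4 - om6 x p.1 * p.2.x4, om6 x p.2 * p.1.x5 - om6 x p.1 * p.2.x5⟩

/-- sum of three vectors -/
def add3 (x y z : V6) : V6 :=
  ⟨x.x0 + y.x0 + z.x0, x.x1 + y.x1 + z.x1, x.x2 + y.x2 + z.x2, x.x3 + y.x3 + z.x3,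
    x.x4 + y.x4 + z.x4, x.x5 + y.x5 + z.x5⟩

theorem complete6 (p q r : P6) (hp : om6 p.1 p.2 = 1) (hq : om6 q.1 q.2 = 1)
    (hr : om6 r.1 r.2 = 1) (hpq : orth6 p q) (hpr : orth6 p r) (hqr : orth6 q r) (x : V6) :
    add3 (pr6 p x) (pr6 q x) (pr6 r x) = x := by
  obtain ⟨u1, v1⟩ := p
  obtain ⟨u2, v2⟩ := q
  obtain ⟨u3, v3⟩ := r
  obtain ⟨a1, a2, a3, a4⟩ := hpq
  obtain ⟨b1, b2, b3, b4⟩ := hpr
  obtain ⟨c1, c2, c3, c4⟩ := hqr
  simp only at hp hq hr a1 a2 a3 a4 b1 b2 b3 b4 c1 c2 c3 c4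
  simp only [om6] at hp hq hr a1 a2 a3 a4 b1 b2 b3 b4 c1 c2 c3 c4
  let M : Matrix (Fin 6) (Fin 6) ℤ :=
    !![u1.x0, u1.x1, u1.x2, u1.x3, u1.x4, u1.x5;
       v1.x0, v1.x1, v1.x2, v1.x3, v1.x4, v1.x5;
       u2.x0, u2.x1, u2.x2, u2.x3, u2.x4, u2.x5;
       v2.x0, v2.x1, v2.x2, v2.x3, v2.x4, v2.x5;
       u3.x0, u3.x1, u3.x2, u3.x3, u3.x4, u3.x5;
       v3.x0, v3.x1, v3.x2, v3.x3, v3.x4, v3.x5]
  let N : Matrix (Fin 6) (Fin 6) ℤ :=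
    !![v1.x1, -u1.x1, v2.x1, -u2.x1, v3.x1, -u3.x1;
       -v1.x0, u1.x0, -v2.x0, u2.x0, -v3.x0, u3.x0;
       v1.x3, -u1.x3, v2.x3, -u2.x3, v3.x3, -u3.x3;
       -v1.x2, u1.x2, -v2.x2, u2.x2, -v3.x2, u3.x2;
       v1.x5, -u1.x5, v2.x5, -u2.x5, v3.x5, -u3.x5;
       -v1.x4, u1.x4, -v2.x4, u2.x4, -v3.x4, u3.x4]
  have hMN : M * N = 1 := by
    ext i j
    fin_cases i <;> fin_cases j <;>
      simp [M, N, Matrix.mul_apply, Fin.sum_univ_succ] <;> linarith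
  have hNM : N * M = 1 := mul_eq_one_comm.mp hMN
  have key : ∀ c : Fin 6, Matrix.vecMul ![x.x0, x.x1, x.x2, x.x3, x.x4, x.x5] (N * M) c =
      ![x.x0, x.x1, x.x2, x.x3, x.x4, x.x5] c := by
    intro c; rw [hNM, Matrix.vecMul_one]
  have k0 := key 0
  have k1 := key 1
  have k2 := key 2
  have k3 := key 3
  have k4 := key 4
  have k5 := key 5
  simp [M, N, Matrix.mul_apply, Matrix.vecMul, dotProduct, Fin.sum_univ_succ] at k0 k1 k2 k3 k4 k5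
  ext
  · simp only [add3, pr6, om6]; linarith
  · simp only [add3, pr6, om6]; linarith
  · simp only [add3, pr6, om6]; linarith
  · simp only [add3, pr6, om6]; linarith
  · simp only [add3, pr6, om6]; linarith
  · simp only [add3, pr6, om6]; linarith

end Pool.Agent.Torelli.PG
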