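import Pool.Agent.Torelli.PG.Pr
import Pool.Agent.Torelli.PG.V6

/-!
# Torelli project, part PG: derivations in `ℤ⁶`, their certificates and their transport

`Der S p` : the plane `p` is obtained from the planes satisfying `S` by the rule
two of three mutually orthogonal planes give the third.
`run` checks a derivation, `Der.transport` moves it to a closed family of endomorphisms of `Lat`.
-/

set_option autoImplicit false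

namespace Pool.Agent.Torelli.PG

open Pool.Agent.Torelli

/-- derivations in `ℤ⁶` -/
inductive Der (S : P6 → Prop) : P6 → Prop
  | base (p : P6) : S p → Der S p
  | step (p q r : P6) : Der S p → Der S q → om6 p.1 p.2 = 1 → om6 q.1 q.2 = 1 → om6 r.1 r.2 = 1 →
      orth6 p q → orth6 p r → orth6 q r → Der S r
  | same (p r : P6) : Der S p → om6 p.1 p.2 = 1 → om6 r.1 r.2 = 1 → r.1 = pr6 p r.1 →
      r.2 = pr6 p r.2 → Der S r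

/-- boolean version of `orth6` -/
def ortb (p q : P6) : Bool :=
  decide (om6 p.1 q.1 = 0) && decide (om6 p.1 q.2 = 0) && decide (om6 p.2 q.1 = 0) &&
    decide (om6 p.2 q.2 = 0)

theorem orth_of_ortb {p q : P6} (h : ortb p q = true) : orth6 p q := by
  simp only [ortb, Bool.and_eq_true, decide_eq_true_eq] at h
  exact ⟨h.1.1.1, h.1.1.2, h.1.2, h.2⟩

/-- boolean version of the same-plane relation -/
def sameb (p r : P6) : Bool :=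
  decide (om6 r.1 r.2 = 1) && decide (r.1 = pr6 p r.1) && decide (r.2 = pr6 p r.2)

/-- final check -/
def fin6 (K : List P6) : List (ℕ × P6) → Bool
  | [] => true
  | (i, t) :: l => (match K[i]? with
      | some p => sameb p t
      | none => false) && fin6 K l

/-- check of a derivation -/
def run (K : List P6) : List (ℕ × ℕ × P6) → List (ℕ × P6) → Bool
  | [], T => fin6 K T
  | (i, j, r) :: l, T => (match K[i]?, K[j]? with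
      | some p, some q => decide (om6 r.1 r.2 = 1) && ortb p q && ortb p r && ortb q r
      | _, _ => false) && run (r :: K) l T

theorem fin6_sound {S : P6 → Prop} {K : List P6}
    (hK : ∀ p ∈ K, Der S p ∧ om6 p.1 p.2 = 1) {T : List (ℕ × P6)} (h : fin6 K T = true) :
    ∀ t ∈ T, Der S t.2 := by
  induction T with
  | nil => intro t ht; cases ht
  | cons x l ih =>
    obtain ⟨i, t⟩ := x
    simp only [fin6, Bool.and_eq_true] at h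
    intro y hy
    rcases List.mem_cons.mp hy with rfl | hy
    · have h1 := h.1
      cases hp : K[i]? with
      | none => rw [hp] at h1; simp at h1
      | some p =>
        rw [hp] at h1
        simp only [sameb, Bool.and_eq_true, decide_eq_true_eq] at h1
        have hmem : p ∈ K := List.mem_of_getElem? hp
        exact Der.same p _ (hK p hmem).1 (hK p hmem).2 h1.1.1 h1.1.2 h1.2
    · exact ih h.2 y hy

theorem run_sound {S : P6 → Prop} {K : List P6} {l : List (ℕ × ℕ × P6)} {T : List (ℕ × P6)}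
    (h : run K l T = true) (hK : ∀ p ∈ K, Der S p ∧ om6 p.1 p.2 = 1) :
    ∀ t ∈ T, Der S t.2 := by
  induction l generalizing K with
  | nil => exact fin6_sound hK h
  | cons x l ih =>
    obtain ⟨i, j, r⟩ := x
    simp only [run, Bool.and_eq_true] at h
    refine ih h.2 ?_
    intro y hy
    rcases List.mem_cons.mp hy with rfl | hy
    · have h1 := h.1
      cases hp : K[i]? with
      | none => rw [hp] at h1; simp at h1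
      | some p =>
        cases hq : K[j]? with
        | none => rw [hp, hq] at h1; simp at h1
        | some q =>
          rw [hp, hq] at h1
          simp only [Bool.and_eq_true, decide_eq_true_eq] at h1
          have hpm : p ∈ K := List.mem_of_getElem? hp
          have hqm : q ∈ K := List.mem_of_getElem? hq
          exact ⟨Der.step p q _ (hK p hpm).1 (hK q hqm).1 (hK p hpm).2 (hK q hqm).2 h1.1.1.1
            (orth_of_ortb h1.1.1.2) (orth_of_ortb h1.1.2) (orth_of_ortb h1.2), h1.1.1.1⟩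
    · exact hK y hy

theorem exists_zip {α β : Type*} {l : List α} {m : List β} (h : l.length = m.length) {y : β}
    (hy : y ∈ m) : ∃ x, (x, y) ∈ l.zip m := by
  induction m generalizing l with
  | nil => cases hy
  | cons z m ih =>
    cases l with
    | nil => simp at h
    | cons x l =>
      rcases List.mem_cons.mp hy with rfl | hy
      · exact ⟨x, by simp⟩
      · obtain ⟨w, hw⟩ := ih (by simpa using h) hy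
        exact ⟨w, by simp [hw]⟩

/-! ## The two lists -/

/-- the 21 start planes -/
def S3list : List P6 := [
  (⟨1, 0, 0, 0, 0, 0⟩, ⟨0, 1, 0, 0, 0, 0⟩),
  (⟨0, 0, 1, 0, 0, 0⟩, ⟨0, 0, 0, 1, 0, 0⟩),
  (⟨1, 0, 1, 0, 0, 0⟩, ⟨0, 0, 0, 1, 0, 0⟩),
  (⟨0, 0, 1, 0, 0, 0⟩, ⟨1, 0, 0, 1, 0, 0⟩),
  (⟨0, 1, 1, 0, 0, 0⟩, ⟨0, 0, 0, 1, 0, 0⟩),
  (⟨0, 0, 1, 0, 0, 0⟩, ⟨0, 1, 0, 1, 0, 0⟩),
  (⟨1, 0, 0, 0, 1, 0⟩, ⟨0, 0, 0, 0, 0, 1⟩),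
  (⟨0, 0, 0, 0, 1, 0⟩, ⟨1, 0, 0, 0, 0, 1⟩),
  (⟨0, 1, 0, 0, 1, 0⟩, ⟨0, 0, 0, 0, 0, 1⟩),
  (⟨0, 0, 0, 0, 1, 0⟩, ⟨0, 1, 0, 0, 0, 1⟩),
  (⟨0, 0, 1, 0, 1, 0⟩, ⟨0, 0, 0, 0, 0, 1⟩),
  (⟨0, 0, 0, 0, 1, 0⟩, ⟨0, 0, 1, 0, 0, 1⟩),
  (⟨0, 0, 0, 1, 1, 0⟩, ⟨0, 0, 0, 0, 0, 1⟩),
  (⟨0, 0, 0, 0, 1, 0⟩, ⟨0, 0, 0, 1, 0, 1⟩),
  (⟨1, 1, 1, 0, 0, 0⟩, ⟨0, 0, 0, 1, 0, 0⟩),
  (⟨0, 0, 1, 0, 0, 0⟩, ⟨1, 1, 0, 1, 0, 0⟩),
  (⟨1, 1, 0, 0, 1, 0⟩, ⟨0, 0, 0, 0, 0, 1⟩),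
  (⟨0, 0, 0, 0, 1, 0⟩, ⟨1, 1, 0, 0, 0, 1⟩),
  (⟨1, 0, 1, 1, 0, 0⟩, ⟨0, 1, 0, 0, 0, 0⟩),
  (⟨1, 0, 0, 0, 0, 0⟩, ⟨0, 1, 1, 1, 0, 0⟩),
  (⟨1, 1, 1, 0, 0, 0⟩, ⟨0, 0, 1, 1, 0, 0⟩)]

/-- the 45 planes supported on two handles -/
def G0list : List P6 := [
  (⟨1, 0, 0, 0, 0, 0⟩, ⟨0, 1, 0, 0, 0, 0⟩),
  (⟨1, 0, 1, 0, 0, 0⟩, ⟨0, 1, 0, 0, 0, 0⟩),
  (⟨1, 0, 0, 0, 0, 0⟩, ⟨0, 1, 1, 0, 0, 0⟩),
  (⟨1, 0, 0, 1, 0, 0⟩, ⟨0, 1, 0, 0, 0, 0⟩),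
  (⟨1, 0, 0, 0, 0, 0⟩, ⟨0, 1, 0, 1, 0, 0⟩),
  (⟨1, 0, 1, 1, 0, 0⟩, ⟨0, 1, 0, 0, 0, 0⟩),
  (⟨1, 0, 0, 0, 0, 0⟩, ⟨0, 1, 1, 1, 0, 0⟩),
  (⟨1, 1, 1, 0, 0, 0⟩, ⟨0, 0, 1, 1, 0, 0⟩),
  (⟨1, 0, 0, 0, 1, 0⟩, ⟨0, 1, 0, 0, 0, 0⟩),
  (⟨1, 0, 0, 0, 0, 0⟩, ⟨0, 1, 0, 0, 1, 0⟩),
  (⟨1, 0, 0, 0, 0, 1⟩, ⟨0, 1, 0, 0, 0, 0⟩),
  (⟨1, 0, 0, 0, 0, 0⟩, ⟨0, 1, 0, 0, 0, 1⟩),
  (⟨1, 0, 0, 0, 1, 1⟩, ⟨0, 1, 0, 0, 0, 0⟩),
  (⟨1, 0, 0, 0, 0, 0⟩, ⟨0, 1, 0, 0, 1, 1⟩),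
  (⟨1, 1, 0, 0, 1, 0⟩, ⟨0, 0, 0, 0, 1, 1⟩),
  (⟨0, 0, 1, 0, 0, 0⟩, ⟨0, 0, 0, 1, 0, 0⟩),
  (⟨1, 0, 1, 0, 0, 0⟩, ⟨0, 0, 0, 1, 0, 0⟩),
  (⟨0, 0, 1, 0, 0, 0⟩, ⟨1, 0, 0, 1, 0, 0⟩),
  (⟨0, 1, 1, 0, 0, 0⟩, ⟨0, 0, 0, 1, 0, 0⟩),
  (⟨0, 0, 1, 0, 0, 0⟩, ⟨0, 1, 0, 1, 0, 0⟩),
  (⟨1, 1, 1, 0, 0, 0⟩, ⟨0, 0, 0, 1, 0, 0⟩),
  (⟨0, 0, 1, 0, 0, 0⟩, ⟨1, 1, 0, 1, 0, 0⟩),
  (⟨1, 0, 1, 1, 0, 0⟩, ⟨1, 1, 0, 0, 0, 0⟩),
  (⟨0, 0, 1, 0, 1, 0⟩, ⟨0, 0, 0, 1, 0, 0⟩),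
  (⟨0, 0, 1, 0, 0, 0⟩, ⟨0, 0, 0, 1, 1, 0⟩),
  (⟨0, 0, 1, 0, 0, 1⟩, ⟨0, 0, 0, 1, 0, 0⟩),
  (⟨0, 0, 1, 0, 0, 0⟩, ⟨0, 0, 0, 1, 0, 1⟩),
  (⟨0, 0, 1, 0, 1, 1⟩, ⟨0, 0, 0, 1, 0, 0⟩),
  (⟨0, 0, 1, 0, 0, 0⟩, ⟨0, 0, 0, 1, 1, 1⟩),
  (⟨0, 0, 1, 1, 1, 0⟩, ⟨0, 0, 0, 0, 1, 1⟩),
  (⟨0, 0, 0, 0, 1, 0⟩, ⟨0, 0, 0, 0, 0, 1⟩),
  (⟨1, 0, 0, 0, 1, 0⟩, ⟨0, 0, 0, 0, 0, 1⟩),
  (⟨0, 0, 0, 0, 1, 0⟩, ⟨1, 0, 0, 0, 0, 1⟩),
  (⟨0, 1, 0, 0, 1, 0⟩, ⟨0, 0, 0, 0, 0, 1⟩),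
  (⟨0, 0, 0, 0, 1, 0⟩, ⟨0, 1, 0, 0, 0, 1⟩),
  (⟨1, 1, 0, 0, 1, 0⟩, ⟨0, 0, 0, 0, 0, 1⟩),
  (⟨0, 0, 0, 0, 1, 0⟩, ⟨1, 1, 0, 0, 0, 1⟩),
  (⟨1, 0, 0, 0, 1, 1⟩, ⟨1, 1, 0, 0, 0, 0⟩),
  (⟨0, 0, 1, 0, 1, 0⟩, ⟨0, 0, 0, 0, 0, 1⟩),
  (⟨0, 0, 0, 0, 1, 0⟩, ⟨0, 0, 1, 0, 0, 1⟩),
  (⟨0, 0, 0, 1, 1, 0⟩, ⟨0, 0, 0, 0, 0, 1⟩),
  (⟨0, 0, 0, 0, 1, 0⟩, ⟨0, 0, 0, 1, 0, 1⟩),
  (⟨0, 0, 1, 1, 1, 0⟩, ⟨0, 0, 0, 0, 0, 1⟩),
  (⟨0, 0, 0, 0, 1, 0⟩, ⟨0, 0, 1, 1, 0, 1⟩),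
  (⟨0, 0, 1, 0, 1, 1⟩, ⟨0, 0, 1, 1, 0, 0⟩)]

theorem S3_symp : ∀ p ∈ S3list, om6 p.1 p.2 = 1 := by decide

theorem G0_symp : ∀ p ∈ G0list, om6 p.1 p.2 = 1 := by decide

/-- `b₀ ↦ b₀ + e a₀` -/
def ta6 (e : ℤ) (x : V6) : V6 := ⟨x.x0 + e * x.x1, x.x1, x.x2, x.x3, x.x4, x.x5⟩
/-- `a₀ ↦ a₀ + e b₀` -/
def tb6 (e : ℤ) (x : V6) : V6 := ⟨x.x0, x.x1 + e * x.x0, x.x2, x.x3, x.x4, x.x5⟩
/-- `b₀ ↦ b₀ - e a₁`, `b₁ ↦ b₁ - e a₀` -/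
def tp6 (e : ℤ) (x : V6) : V6 := ⟨x.x0 - e * x.x3, x.x1, x.x2 - e * x.x1, x.x3, x.x4, x.x5⟩

/-- the six images of a pair -/
def six (g : P6) : List P6 :=
  [(ta6 1 g.1, ta6 1 g.2), (ta6 (-1) g.1, ta6 (-1) g.2), (tb6 1 g.1, tb6 1 g.2),
    (tb6 (-1) g.1, tb6 (-1) g.2), (tp6 1 g.1, tp6 1 g.2), (tp6 (-1) g.1, tp6 (-1) g.2)]

/-! ## Transport -/

/-- embedding at the handles `i, j, k` -/
noncomputable def em (i j k : ℕ) (x : V6) : Lat :=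
  x.x0 • ea i + x.x1 • eb i + (x.x2 • ea j + x.x3 • eb j) + (x.x4 • ea k + x.x5 • eb k)

/-- coordinates at the handles `i, j, k` -/
def res (i j k : ℕ) (v : Lat) : V6 :=
  ⟨v (2 * i), v (2 * i + 1), v (2 * j), v (2 * j + 1), v (2 * k), v (2 * k + 1)⟩

theorem om_em (i j k : ℕ) (v : Lat) (x : V6) : om v (em i j k x) = om6 (res i j k v) x := by
  simp only [em, map_add, map_zsmul, om_ea_right, om_eb_right, res, om6, smul_eq_mul]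
  ring

theorem em_coord {i j k : ℕ} (hij : i ≠ j) (hik : i ≠ k) (hjk : j ≠ k) (x : V6) :
    em i j k x (2 * i) = x.x0 ∧ em i j k x (2 * i + 1) = x.x1 ∧ em i j k x (2 * j) = x.x2 ∧
      em i j k x (2 * j + 1) = x.x3 ∧ em i j k x (2 * k) = x.x4 ∧
      em i j k x (2 * k + 1) = x.x5 := by
  simp only [em, Finsupp.add_apply, Finsupp.smul_apply, ea_even, ea_odd, eb_even, eb_odd,
    smul_eq_mul, if_pos, hij, hik, hjk, hij.symm, hik.symm, hjk.symm, if_false, mul_zero, mul_one,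
    add_zero, zero_add, and_self]

theorem res_em {i j k : ℕ} (hij : i ≠ j) (hik : i ≠ k) (hjk : j ≠ k) (x : V6) :
    res i j k (em i j k x) = x := by
  obtain ⟨h0, h1, h2, h3, h4, h5⟩ := em_coord hij hik hjk x
  ext <;> simp only [res, h0, h1, h2, h3, h4, h5]

theorem om_em_em {i j k : ℕ} (hij : i ≠ j) (hik : i ≠ k) (hjk : j ≠ k) (x y : V6) :
    om (em i j k x) (em i j k y) = om6 x y := by
  rw [om_em, res_em hij hik hjk]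

/-- the projection attached to a pair -/
noncomputable def PR (i j k : ℕ) (p : P6) : EV := pr (em i j k p.1) (em i j k p.2)

theorem PR_apply (i j k : ℕ) (p : P6) (x : Lat) :
    PR i j k p x = em i j k (pr6 p (res i j k x)) := by
  rw [PR, pr_apply, om_em, om_em]
  simp only [em, pr6, sub_smul, mul_smul, smul_add]
  abel

/-- the projection on three handles -/
noncomputable def E3 (i j k : ℕ) : EV := pr (ea i) (eb i) + pr (ea j) (eb j) + pr (ea k) (eb k)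

theorem E3_apply (i j k : ℕ) (x : Lat) : E3 i j k x = em i j k (res i j k x) := by
  rw [E3, EV_add, EV_add, pr_eab, pr_eab, pr_eab, em]
  simp only [res, add_assoc]

theorem em_add3 (i j k : ℕ) (x y z : V6) :
    em i j k (add3 x y z) = em i j k x + em i j k y + em i j k z := by
  simp only [em, add3, add_smul]
  abel

theorem PR_sum (i j k : ℕ) {p q r : P6} (hp : om6 p.1 p.2 = 1) (hq : om6 q.1 q.2 = 1)
    (hr : om6 r.1 r.2 = 1) (hpq : orth6 p q) (hpr : orth6 p r) (hqr : orth6 q r) :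
    PR i j k p + PR i j k q + PR i j k r = E3 i j k := by
  refine EV_ext fun x => ?_
  rw [EV_add, EV_add, PR_apply, PR_apply, PR_apply, ← em_add3,
    complete6 p q r hp hq hr hpq hpr hqr, E3_apply]

theorem orth6_symm {p q : P6} (h : orth6 p q) : orth6 q p := by
  obtain ⟨h1, h2, h3, h4⟩ := h
  refine ⟨?_, ?_, ?_, ?_⟩
  · rw [om6_skew, h1, neg_zero]
  · rw [om6_skew, h3, neg_zero]
  · rw [om6_skew, h2, neg_zero]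
  · rw [om6_skew, h4, neg_zero]

theorem PR_orth {i j k : ℕ} (hij : i ≠ j) (hik : i ≠ k) (hjk : j ≠ k) {p q : P6}
    (h : orth6 p q) : PR i j k p * PR i j k q = 0 := by
  obtain ⟨h1, h2, h3, h4⟩ := h
  exact pr_mul_pr (by rw [om_em_em hij hik hjk, h1]) (by rw [om_em_em hij hik hjk, h2])
    (by rw [om_em_em hij hik hjk, h3]) (by rw [om_em_em hij hik hjk, h4])

theorem PR_idem {i j k : ℕ} (hij : i ≠ j) (hik : i ≠ k) (hjk : j ≠ k) {p : P6}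
    (h : om6 p.1 p.2 = 1) : PR i j k p * PR i j k p = PR i j k p :=
  pr_idem (by rw [om_em_em hij hik hjk, h])

/-- transport of a derivation -/
theorem Der.transport {C : Set EV} (hC : Closed C) {i j k : ℕ} (hij : i ≠ j) (hik : i ≠ k)
    (hjk : j ≠ k) (hE : E3 i j k ∈ C) {S : P6 → Prop} (hS : ∀ p, S p → PR i j k p ∈ C)
    {r : P6} (h : Der S r) : PR i j k r ∈ C := by
  induction h with
  | base p hp => exact hS p hp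
  | step p q r _ _ hp hq hr hpq hpr hqr ihp ihq =>
    have hsum := PR_sum i j k hp hq hr hpq hpr hqr
    have o := @PR_orth i j k hij hik hjk
    have d := @PR_idem i j k hij hik hjk
    have h1 : PR i j k p + PR i j k q ∈ C :=
      hC.add _ _ ihp ihq (o hpq) (o (orth6_symm hpq))
    have h2 : E3 i j k - (PR i j k p + PR i j k q) ∈ C := by
      refine hC.sub _ _ hE h1 ?_ ?_
      · rw [← hsum]
        simp only [add_mul, mul_add, d hp, d hq, o hpq, o (orth6_symm hpq), o (orth6_symm hpr),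
          o (orth6_symm hqr), add_zero, zero_add]
      · rw [← hsum]
        simp only [add_mul, mul_add, d hp, d hq, o hpq, o (orth6_symm hpq), o hpr, o hqr,
          add_zero, zero_add]
    have h3 : E3 i j k - (PR i j k p + PR i j k q) = PR i j k r := by
      rw [← hsum]; abel
    rwa [h3] at h2
  | same p r _ hp hr e1 e2 ih =>
    have : PR i j k r = PR i j k p := by
      refine pr_same (by rw [om_em_em hij hik hjk, hp]) (by rw [om_em_em hij hik hjk, hr]) ?_ ?_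
      · have := PR_apply i j k p (em i j k r.1)
        rw [res_em hij hik hjk, ← e1, PR, pr_apply] at this
        exact this.symm
      · have := PR_apply i j k p (em i j k r.2)
        rw [res_em hij hik hjk, ← e2, PR, pr_apply] at this
        exact this.symm
    rw [this]; exact ih

end Pool.Agent.Torelli.PG
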