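import Pool.Agent.Torelli.PG.Cert

/-!
# Torelli project, part PG: certificate A
-/

set_option autoImplicit false

namespace Pool.Agent.Torelli.PG

/-- steps of certificate A -/
def stepsA : List (ℕ × ℕ × P6) := [
  (20, 19, (⟨0, 0, 0, 0, 1, 0⟩, ⟨0, 0, 0, 0, 0, 1⟩)),
  (18, 0, (⟨1, 0, 0, 0, 0, 0⟩, ⟨0, 1, 1, 0, 0, 0⟩)),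
  (21, 14, (⟨1, 0, 0, 0, 0, 1⟩, ⟨0, 1, 0, 0, 0, 0⟩)),
  (23, 12, (⟨0, 0, 1, 0, 0, 0⟩, ⟨0, 0, 0, 1, 1, 0⟩)),
  (20, 3, (⟨1, 0, 0, 1, 0, 0⟩, ⟨0, 1, 0, 0, 0, 0⟩)),
  (25, 13, (⟨0, 0, 1, 0, 0, 1⟩, ⟨0, 0, 0, 1, 0, 0⟩)),
  (25, 19, (⟨1, 0, 0, 0, 0, 0⟩, ⟨0, 1, 0, 0, 1, 0⟩)),
  (7, 6, (⟨1, 0, 1, 1, 0, 0⟩, ⟨1, 1, 0, 0, 0, 0⟩)),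
  (27, 19, (⟨0, 1, 0, 0, 0, 0⟩, ⟨-1, 0, 0, 0, 1, 0⟩)),
  (15, 8, (⟨1, 1, 0, 0, 0, 0⟩, ⟨0, 1, 0, -1, 0, 0⟩)),
  (17, 0, (⟨0, 0, 0, 1, 0, 0⟩, ⟨-1, -1, -1, 0, 1, 0⟩)),
  (22, 0, (⟨0, 1, 0, -1, 0, 0⟩, ⟨-1, 0, 0, -1, 1, 0⟩)),
  (18, 0, (⟨0, 0, 0, 0, 1, 0⟩, ⟨0, 1, 0, -1, 0, 1⟩)),
  (4, 0, (⟨0, 0, 1, 0, 1, 0⟩, ⟨0, 0, 0, 1, 0, 0⟩)),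
  (29, 25, (⟨0, 1, 0, 0, 0, 0⟩, ⟨-1, 0, 1, 0, 1, 0⟩)),
  (35, 25, (⟨0, 0, 1, 0, 0, 0⟩, ⟨0, 0, 0, 1, 0, -1⟩)),
  (1, 0, (⟨0, 1, 0, 0, 0, 1⟩, ⟨0, 0, -1, 0, -1, 0⟩)),
  (8, 0, (⟨0, 0, 1, 0, 0, 0⟩, ⟨0, -1, 0, 1, 0, -1⟩)),
  (28, 0, (⟨1, 0, 1, 0, 0, 0⟩, ⟨0, 1, 0, 0, 0, 0⟩)),
  (20, 18, (⟨1, 0, 0, 1, 0, 0⟩, ⟨1, 0, -1, 0, 0, 0⟩)),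
  (34, 0, (⟨1, 0, 0, 0, 0, 0⟩, ⟨0, 1, 1, 1, 0, -1⟩)),
  (31, 0, (⟨1, 0, -1, 0, 0, 0⟩, ⟨0, 0, -1, -1, 0, 1⟩)),
  (23, 0, (⟨0, 0, 0, 0, 0, 1⟩, ⟨1, 0, -1, 0, -1, 0⟩)),
  (7, 0, (⟨1, 0, 0, 0, 0, 0⟩, ⟨0, 1, 0, 0, 0, 1⟩)),
  (0, 43, (⟨0, 0, 0, 0, 0, 1⟩, ⟨1, 0, 0, 0, -1, 0⟩)),
  (7, 0, (⟨1, 0, 1, 0, 0, 0⟩, ⟨0, 1, 0, 0, 0, 1⟩)),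
  (25, 7, (⟨0, 0, 1, 0, 0, 0⟩, ⟨0, -1, 0, 1, 0, 0⟩)),
  (1, 0, (⟨0, 0, 0, 0, 0, 1⟩, ⟨1, 0, 1, 0, -1, 0⟩)),
  (4, 0, (⟨0, 0, 1, 0, 0, 0⟩, ⟨0, 0, 0, 1, 0, 1⟩)),
  (15, 49, (⟨0, 0, 0, 0, 1, 0⟩, ⟨0, 0, 0, -1, 0, 1⟩)),
  (5, 48, (⟨1, 0, 0, 0, 0, 0⟩, ⟨0, 1, 0, -1, 0, 1⟩)),
  (0, 17, (⟨1, 0, 0, 0, -1, 0⟩, ⟨0, 0, 0, 1, 0, -1⟩)),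
  (0, 8, (⟨0, 0, 0, 1, 0, 0⟩, ⟨1, 0, -1, 0, -1, 0⟩)),
  (3, 0, (⟨1, 0, 0, 0, 0, 0⟩, ⟨0, 1, 0, 1, 0, 0⟩)),
  (15, 21, (⟨0, 1, 0, -1, 0, 0⟩, ⟨0, 0, 1, 0, 1, 0⟩)),
  (5, 0, (⟨0, 1, 0, 0, 0, 0⟩, ⟨-1, 0, -1, 0, -1, 0⟩)),
  (0, 9, (⟨0, 0, 0, 0, 1, 0⟩, ⟨0, -1, 0, 0, 0, 1⟩)),
  (56, 0, (⟨1, 0, 0, 0, 1, 0⟩, ⟨0, 1, 0, 0, 0, 0⟩)),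
  (46, 28, (⟨0, 0, 0, 1, 0, 0⟩, ⟨-1, -1, -1, 0, 0, -1⟩)),
  (0, 14, (⟨1, 0, 0, 1, 0, 0⟩, ⟨1, 1, 0, 0, 0, 1⟩)),
  (0, 8, (⟨0, 0, 0, 1, 0, 0⟩, ⟨0, -1, -1, 0, -1, -1⟩)),
  (0, 36, (⟨0, 0, 0, 1, 1, 0⟩, ⟨0, 0, 0, 0, 1, 1⟩)),
  (62, 0, (⟨0, 0, 1, 0, 1, 1⟩, ⟨0, 0, 0, 1, 0, 0⟩)),
  (47, 43, (⟨1, 1, 0, 0, 0, 0⟩, ⟨0, 1, -1, -1, 0, -1⟩)),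
  (52, 0, (⟨1, 1, 0, -1, 0, 0⟩, ⟨0, 0, 1, 1, 0, 1⟩)),
  (0, 17, (⟨1, 1, 0, 0, 0, 1⟩, ⟨0, 1, -1, -1, 0, 0⟩)),
  (0, 58, (⟨0, 0, 1, 1, 0, 0⟩, ⟨-1, -1, 0, 1, 0, -1⟩)),
  (39, 0, (⟨0, 0, 1, 1, 1, 0⟩, ⟨0, 0, 0, 0, 0, 1⟩)),
  (61, 28, (⟨1, 0, 0, 0, 0, 0⟩, ⟨0, 1, 1, 1, 1, 0⟩)),
  (0, 19, (⟨1, 0, 0, 1, 0, 0⟩, ⟨1, 0, -1, 0, -1, 0⟩)),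
  (0, 18, (⟨1, 0, 0, 0, 0, 0⟩, ⟨0, 1, 1, 0, 1, 1⟩)),
  (0, 68, (⟨1, 0, 0, 0, 0, 1⟩, ⟨1, 0, 0, 0, -1, 0⟩)),
  (71, 0, (⟨1, 0, 0, 0, 0, 0⟩, ⟨0, 1, 0, 0, 1, 1⟩)),
  (23, 48, (⟨0, 0, 0, 1, 0, 0⟩, ⟨0, -1, -1, 0, -1, 0⟩)),
  (51, 0, (⟨0, 1, 0, 0, 1, 0⟩, ⟨0, 0, 0, -1, 0, 1⟩)),
  (57, 42, (⟨0, 1, 0, -1, 0, 0⟩, ⟨0, 1, 1, 0, 1, 0⟩)),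
  (1, 0, (⟨0, 1, 0, 0, 0, 0⟩, ⟨-1, 0, -1, 0, -1, -1⟩)),
  (0, 30, (⟨0, 1, 0, 0, 1, 0⟩, ⟨0, 0, 0, 0, 1, 1⟩)),
  (77, 0, (⟨1, 0, 0, 0, 1, 1⟩, ⟨0, 1, 0, 0, 0, 0⟩)),
  (78, 62, (⟨1, 1, 0, 0, 0, 0⟩, ⟨0, 1, 0, 0, 1, 0⟩)),
  (51, 56, (⟨0, 0, 0, 0, 1, 0⟩, ⟨0, 1, 1, 0, 0, 1⟩)),
  (11, 0, (⟨1, 0, 0, 0, -1, 0⟩, ⟨1, 1, 1, 1, 0, 0⟩)),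
  (0, 42, (⟨0, 0, 0, 0, 1, 0⟩, ⟨1, 1, 1, 1, 0, 1⟩)),
  (3, 0, (⟨0, 0, 1, 1, 0, 0⟩, ⟨0, 0, 0, 1, 1, 0⟩)),
  (84, 0, (⟨0, 0, 0, 0, 1, 0⟩, ⟨0, 0, 1, 1, 0, 1⟩)),
  (5, 18, (⟨1, 1, 0, 0, 0, 1⟩, ⟨0, 0, -1, -1, -1, 0⟩)),
  (4, 0, (⟨0, 0, 1, 1, 0, 0⟩, ⟨0, -1, 0, 1, -1, -1⟩)),
  (69, 0, (⟨0, 0, 1, 1, 1, 0⟩, ⟨0, 0, 0, 0, 1, 1⟩)),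
  (73, 67, (⟨1, 1, 0, 0, 0, 0⟩, ⟨0, 1, 1, 0, 0, 0⟩)),
  (0, 6, (⟨0, 0, 1, 0, -1, 0⟩, ⟨1, 1, 1, 1, 0, 0⟩)),
  (26, 6, (⟨1, 1, 0, 0, 1, 0⟩, ⟨0, 0, 1, 1, 0, 1⟩)),
  (1, 0, (⟨1, 1, 0, 0, 0, 0⟩, ⟨0, 1, 0, -1, -1, -1⟩)),
  (0, 78, (⟨1, 1, 0, 0, 1, 0⟩, ⟨0, 0, 0, 0, 1, 1⟩)),
  (92, 0, (⟨1, 0, 0, 0, 1, 1⟩, ⟨1, 1, 0, 0, 0, 0⟩)),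
  (83, 5, (⟨0, 0, 1, 0, 0, 0⟩, ⟨1, 1, 0, 1, 1, 0⟩)),
  (18, 59, (⟨0, 1, 0, 0, 0, -1⟩, ⟨0, 1, 1, 0, 1, 0⟩)),
  (1, 0, (⟨0, 1, 1, 0, 0, 0⟩, ⟨-1, 0, 0, 0, -1, -1⟩)),
  (19, 0, (⟨0, 0, 1, 0, 0, 0⟩, ⟨1, 0, 0, 1, 1, 1⟩)),
  (76, 0, (⟨0, 0, 1, 0, 0, 1⟩, ⟨0, 0, 1, 0, -1, 0⟩)),
  (0, 99, (⟨0, 0, 1, 0, 0, 0⟩, ⟨0, 0, 0, 1, 1, 1⟩)),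
  (38, 29, (⟨1, 0, 0, 1, 0, 0⟩, ⟨0, 0, -1, 0, -1, -1⟩)),
  (4, 0, (⟨0, 0, 0, 0, 1, 1⟩, ⟨-1, -1, -1, -1, 0, 1⟩)),
  (8, 0, (⟨0, 0, 1, 0, 1, 1⟩, ⟨0, 0, 1, 1, 0, 0⟩))]

/-- positions of the targets -/
def idxA : List ℕ := [
  103, 64, 81, 78, 49, 85, 84, 83, 45, 76, 80, 59, 24, 30, 10, 102, 101, 100, 99, 98,
  89, 88, 75, 69, 79, 77, 54, 40, 3, 15, 82, 97, 96, 95, 94, 87, 86, 9, 93, 92,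
  91, 90, 35, 18, 0]

theorem certA_check : run S3list.reverse stepsA (idxA.zip G0list) = true := by decide +kernel

/-- the planes of `S3list` generate all planes of `G0list` -/
theorem certA (g : P6) (hg : g ∈ G0list) : Der (fun p => p ∈ S3list) g := by
  have hlen : idxA.length = G0list.length := by decide +kernel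
  have h := run_sound (S := fun p => p ∈ S3list) certA_check
    (fun p hp => ⟨Der.base p (List.mem_reverse.mp hp), S3_symp p (List.mem_reverse.mp hp)⟩)
  obtain ⟨n, hn⟩ := exists_zip hlen hg
  exact h (n, g) hn

end Pool.Agent.Torelli.PG
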