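import Pool.Agent.Torelli.PG.Cert

/-!
# Torelli project, part PG: certificate B
-/

set_option autoImplicit false

namespace Pool.Agent.Torelli.PG

/-- steps of certificate B -/
def stepsB : List (ℕ × ℕ × P6) := [
  (32, 29, (⟨0, 1, 0, 0, 1, 0⟩, ⟨0, 0, 0, 0, 1, 1⟩)),
  (34, 20, (⟨-1, 0, 0, 1, 1, 0⟩, ⟨0, 0, 0, 0, 0, 1⟩)),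
  (36, 20, (⟨0, 1, -1, 0, 1, 0⟩, ⟨0, 0, 0, 0, 0, 1⟩)),
  (42, 17, (⟨0, 1, 1, 0, 0, 0⟩, ⟨0, 0, 1, 1, 0, 0⟩)),
  (28, 18, (⟨1, 0, 0, 1, 0, 0⟩, ⟨1, 1, 0, 0, 0, 0⟩)),
  (28, 19, (⟨1, 1, 0, 0, 0, 0⟩, ⟨0, 1, 1, 0, 0, 0⟩)),
  (33, 18, (⟨1, 0, 0, 0, 0, 0⟩, ⟨0, 1, 1, 0, 1, 0⟩)),
  (36, 16, (⟨1, 0, 0, 0, 0, 1⟩, ⟨1, 1, 0, 0, 0, 0⟩)),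
  (37, 16, (⟨1, 1, 0, 0, 0, 0⟩, ⟨0, 1, 0, 0, 1, 0⟩)),
  (25, 16, (⟨1, 1, -1, 0, 1, 0⟩, ⟨0, 0, 0, 0, 1, 1⟩)),
  (52, 15, (⟨0, 0, 1, 0, 0, 0⟩, ⟨1, 0, 0, 1, 1, 0⟩)),
  (42, 11, (⟨-1, 0, 1, 1, 1, 0⟩, ⟨0, 0, 0, 0, 1, 1⟩)),
  (30, 4, (⟨1, 1, -1, 0, 1, 0⟩, ⟨0, 0, 0, 0, 0, 1⟩)),
  (33, 4, (⟨0, 0, 0, 0, 1, 0⟩, ⟨1, 1, 1, 0, 0, 1⟩)),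
  (47, 43, (⟨0, 0, 0, 0, 0, 1⟩, ⟨1, 0, 0, 0, -1, 0⟩)),
  (42, 0, (⟨1, 0, 0, 0, 0, 0⟩, ⟨0, 1, 1, 0, 0, 1⟩)),
  (20, 0, (⟨0, 0, 1, 0, 0, 1⟩, ⟨1, 0, 0, 1, 0, 0⟩)),
  (0, 59, (⟨1, 0, 0, 1, 1, 0⟩, ⟨0, 0, 0, 0, 0, 1⟩)),
  (49, 47, (⟨1, 0, 0, 0, 0, 1⟩, ⟨1, 0, 0, 0, -1, 0⟩)),
  (46, 0, (⟨1, 0, 0, 0, 0, 0⟩, ⟨0, 1, 1, 0, 1, 1⟩)),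
  (35, 0, (⟨0, 0, 1, 0, 1, 1⟩, ⟨1, 0, 1, 1, 0, 0⟩)),
  (63, 0, (⟨1, 0, 1, 1, 1, 0⟩, ⟨0, 0, 0, 0, 1, 1⟩)),
  (22, 0, (⟨1, -1, 0, 0, 1, 1⟩, ⟨1, 0, 0, 0, 0, 0⟩)),
  (0, 52, (⟨1, 0, 0, 0, 1, 0⟩, ⟨0, 0, 0, 0, 1, 1⟩)),
  (68, 42, (⟨0, 0, 0, 0, 0, 1⟩, ⟨0, 0, 1, 0, -1, 0⟩)),
  (67, 0, (⟨0, 0, 1, 0, 0, 0⟩, ⟨1, 0, 0, 1, 0, 1⟩)),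
  (37, 0, (⟨1, 0, 0, 0, 0, 1⟩, ⟨0, 1, 1, 0, 0, 0⟩)),
  (0, 54, (⟨0, 1, 1, 0, 1, 0⟩, ⟨0, 0, 0, 0, 0, 1⟩)),
  (72, 44, (⟨0, 0, 1, 0, 0, 1⟩, ⟨0, 0, 1, 0, -1, 0⟩)),
  (71, 0, (⟨0, 0, 1, 0, 0, 0⟩, ⟨1, 0, 0, 1, 1, 1⟩)),
  (60, 0, (⟨1, 0, 0, 0, 1, 1⟩, ⟨1, 1, 1, 0, 0, 0⟩)),
  (30, 1, (⟨1, 0, 0, 0, 1, 1⟩, ⟨0, 1, 1, 0, 0, 0⟩)),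
  (59, 1, (⟨1, 1, 1, 0, 1, 0⟩, ⟨0, 0, 0, 0, 1, 1⟩)),
  (77, 54, (⟨0, 0, 0, 0, 1, 0⟩, ⟨0, 0, 0, -1, 0, 1⟩)),
  (0, 27, (⟨0, 0, 1, 0, 1, 0⟩, ⟨1, 0, 0, 1, 0, 0⟩)),
  (64, 45, (⟨0, 1, 0, 0, 0, 0⟩, ⟨-1, 0, 0, 0, 1, 0⟩)),
  (56, 0, (⟨0, 0, 0, 0, 1, 0⟩, ⟨0, 1, 1, 0, 0, 1⟩)),
  (81, 43, (⟨0, 0, 1, 0, 0, 0⟩, ⟨0, 0, 0, 1, 0, -1⟩)),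
  (30, 0, (⟨1, 1, 1, 0, 1, 0⟩, ⟨0, 0, 0, 0, 0, 1⟩)),
  (75, 68, (⟨0, 0, 0, 0, 1, 0⟩, ⟨0, -1, 0, 0, 0, 1⟩)),
  (0, 29, (⟨1, 0, 0, 0, 1, 0⟩, ⟨0, 1, 1, 0, 0, 0⟩)),
  (85, 44, (⟨0, 0, 0, 1, 0, 0⟩, ⟨0, 0, -1, 0, 1, 0⟩)),
  (77, 0, (⟨0, 0, 0, 0, 1, 0⟩, ⟨1, 0, 0, 1, 0, 1⟩)),
  (87, 45, (⟨0, 0, 1, 1, 0, 0⟩, ⟨0, 0, 0, 1, 0, -1⟩)),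
  (77, 0, (⟨-1, 0, 1, 1, 1, 0⟩, ⟨0, 0, 0, 0, 0, 1⟩)),
  (74, 58, (⟨1, 0, 0, 0, 0, 0⟩, ⟨0, 1, 0, 0, 0, -1⟩)),
  (0, 2, (⟨1, 0, 1, 1, 1, 0⟩, ⟨0, 0, 0, 0, 0, 1⟩)),
  (91, 48, (⟨0, 0, 1, 1, 0, 0⟩, ⟨0, 0, 0, 1, 1, 0⟩)),
  (83, 0, (⟨0, 0, 0, 0, 1, 0⟩, ⟨1, 0, 1, 1, 0, 1⟩)),
  (93, 66, (⟨0, 0, 0, 1, 1, 0⟩, ⟨0, 0, 0, 0, 1, 1⟩)),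
  (0, 30, (⟨0, 0, 1, 0, 1, 1⟩, ⟨1, 0, 0, 1, 0, 0⟩)),
  (71, 35, (⟨1, 0, 0, 0, -1, 0⟩, ⟨0, 0, -1, 0, 0, -1⟩)),
  (85, 0, (⟨0, 0, 1, 0, 0, 0⟩, ⟨-1, 0, 0, 1, 1, 0⟩)),
  (58, 0, (⟨1, 0, 0, 0, 0, 0⟩, ⟨0, 1, -1, 0, 0, 0⟩)),
  (0, 25, (⟨0, 0, 1, 0, 0, 0⟩, ⟨-1, 0, 0, 1, 1, 1⟩)),
  (1, 43, (⟨0, 0, 1, 0, 1, 1⟩, ⟨-1, 0, 1, 1, 0, 0⟩)),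
  (70, 2, (⟨0, 0, 1, 0, 0, 0⟩, ⟨-1, 0, 0, 1, 0, 0⟩)),
  (0, 69, (⟨1, 0, 0, 0, 0, 0⟩, ⟨0, 1, -1, 0, 1, 0⟩)),
  (1, 39, (⟨1, 0, 0, 0, 0, 0⟩, ⟨0, 1, -1, 0, 1, 1⟩)),
  (2, 49, (⟨1, 0, 0, 0, 1, 1⟩, ⟨1, 1, -1, 0, 0, 0⟩)),
  (3, 57, (⟨1, 0, 0, 0, 0, 1⟩, ⟨0, 1, -1, 0, 0, 0⟩)),
  (4, 46, (⟨1, 0, 0, 0, 0, 0⟩, ⟨0, 1, -1, 0, 0, 1⟩)),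
  (60, 8, (⟨0, 0, 1, 0, 0, 1⟩, ⟨-1, 0, 0, 1, 0, 0⟩)),
  (38, 9, (⟨0, 0, 1, 0, 0, 0⟩, ⟨-1, 0, 0, 1, 0, 1⟩)),
  (100, 84, (⟨0, 0, 0, 0, 1, 0⟩, ⟨0, -1, 1, 0, 0, 1⟩)),
  (8, 0, (⟨1, 0, 0, 0, 1, 0⟩, ⟨0, 1, -1, 0, 0, 0⟩)),
  (101, 87, (⟨0, 0, 0, 0, 1, 0⟩, ⟨1, 0, 0, -1, 0, 1⟩)),
  (13, 0, (⟨0, 0, 1, 0, 1, 0⟩, ⟨-1, 0, 0, 1, 0, 0⟩)),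
  (78, 15, (⟨1, 0, 0, 0, -1, 0⟩, ⟨0, 1, -1, 0, 0, 0⟩)),
  (12, 0, (⟨0, 0, 0, 0, 1, 0⟩, ⟨0, 1, -1, 0, 0, 1⟩)),
  (71, 12, (⟨0, 0, 1, 0, -1, 0⟩, ⟨-1, 0, 1, 1, 0, 0⟩)),
  (0, 17, (⟨0, 0, 0, 0, 1, 0⟩, ⟨-1, 0, 1, 1, 0, 1⟩)),
  (24, 0, (⟨1, 0, 0, 0, 0, 0⟩, ⟨0, 1, 0, 0, -1, 0⟩)),
  (0, 31, (⟨0, 0, 0, 0, 1, 0⟩, ⟨-1, 0, 0, 1, 0, 1⟩)),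
  (82, 21, (⟨1, 0, 0, 0, -1, 0⟩, ⟨1, 1, -1, 0, 0, 0⟩)),
  (0, 18, (⟨0, 0, 0, 0, 1, 0⟩, ⟨1, 1, -1, 0, 0, 1⟩)),
  (65, 24, (⟨1, 0, 0, 0, 0, 0⟩, ⟨0, 1, 2, 0, 0, 1⟩)),
  (62, 0, (⟨0, 0, 1, 0, 0, 0⟩, ⟨2, 0, 0, 1, 0, 0⟩)),
  (92, 0, (⟨1, 0, 0, 0, 0, 0⟩, ⟨0, 1, 2, 0, 0, 0⟩)),
  (28, 48, (⟨0, 0, 0, 0, 1, 1⟩, ⟨-2, -1, -1, -1, 0, 1⟩)),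
  (80, 0, (⟨1, 0, 0, 0, 1, 1⟩, ⟨2, 1, 0, 0, 0, 0⟩)),
  (110, 0, (⟨2, 1, 0, 0, 1, 0⟩, ⟨0, 0, 0, 0, 1, 1⟩)),
  (113, 99, (⟨0, 0, 0, 0, 1, 1⟩, ⟨1, 0, 0, -1, 0, 1⟩)),
  (0, 29, (⟨0, 0, 1, 0, 1, 1⟩, ⟨-1, 0, 0, 1, 0, 0⟩)),
  (116, 100, (⟨0, 0, 0, 0, 1, 1⟩, ⟨0, -1, 1, 0, 0, 1⟩)),
  (0, 28, (⟨1, 0, 0, 0, 1, 1⟩, ⟨0, 1, -1, 0, 0, 0⟩)),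
  (0, 30, (⟨0, 0, 0, 0, 1, 1⟩, ⟨1, -1, 0, -1, 0, 1⟩)),
  (104, 0, (⟨1, 0, 0, 0, 1, 1⟩, ⟨-1, 1, 0, 0, 0, 0⟩)),
  (91, 30, (⟨1, 0, 0, -1, 0, 0⟩, ⟨0, 0, 1, 0, -1, 0⟩)),
  (23, 0, (⟨0, 0, 0, 0, 1, 0⟩, ⟨-1, -1, 1, 1, 0, 1⟩)),
  (0, 42, (⟨1, 0, 0, 0, 1, 0⟩, ⟨1, 1, 0, 0, 0, 0⟩)),
  (125, 47, (⟨0, 0, 0, 0, 0, 1⟩, ⟨0, -1, -1, -1, -1, 0⟩)),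
  (0, 75, (⟨1, 0, 0, 0, 0, 1⟩, ⟨0, 1, 1, 0, 0, 1⟩)),
  (67, 0, (⟨-1, 1, 0, 0, 1, 0⟩, ⟨0, 0, 0, 0, 0, 1⟩)),
  (123, 0, (⟨1, 0, 0, 0, 0, 1⟩, ⟨-1, 1, 0, 0, 0, 0⟩)),
  (137, 46, (⟨0, 0, 1, 0, -1, 0⟩, ⟨1, 0, 1, 1, 0, 0⟩)),
  (55, 0, (⟨0, 0, 0, 0, 1, 0⟩, ⟨1, -1, 0, 1, 0, 1⟩)),
  (55, 0, (⟨1, 0, 0, 0, 1, 0⟩, ⟨-1, 1, 0, 0, 0, 0⟩)),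
  (0, 127, (⟨0, 0, 0, 0, 1, 0⟩, ⟨1, -1, 0, 0, 0, 1⟩)),
  (90, 57, (⟨0, 0, 0, 0, 1, 0⟩, ⟨1, 1, 0, 1, 0, 1⟩)),
  (0, 29, (⟨1, 0, 0, 0, -1, 0⟩, ⟨2, 1, -1, 0, 0, 0⟩)),
  (0, 48, (⟨0, 0, 0, 0, 1, 0⟩, ⟨2, 1, 0, 0, 0, 1⟩)),
  (31, 33, (⟨0, 0, 0, 0, 1, 0⟩, ⟨-1, 1, 0, 1, 0, 1⟩)),
  (0, 61, (⟨1, 0, 0, 0, -1, 0⟩, ⟨0, 1, 0, 0, -1, 0⟩)),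
  (133, 0, (⟨0, 0, 0, 0, 1, 0⟩, ⟨-1, 1, 0, 0, 0, 1⟩)),
  (135, 129, (⟨1, 1, 0, 0, 0, 0⟩, ⟨0, 1, 0, -1, -1, -1⟩)),
  (125, 0, (⟨1, 1, 0, 0, 0, -1⟩, ⟨0, 0, 0, 1, 1, 1⟩)),
  (114, 0, (⟨0, 0, 0, 1, 0, 0⟩, ⟨1, 1, -1, 0, 0, -1⟩)),
  (112, 0, (⟨1, 1, 0, 0, 0, 0⟩, ⟨0, 1, 0, 1, 0, 0⟩)),
  (3, 80, (⟨1, 1, 1, 0, 0, 0⟩, ⟨0, 0, 0, 1, 1, 1⟩)),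
  (105, 0, (⟨0, 0, 0, 0, 1, 1⟩, ⟨1, 1, 1, 0, 0, 1⟩)),
  (127, 0, (⟨1, 1, 0, 0, 0, 0⟩, ⟨0, 1, 0, 0, 1, 1⟩)),
  (129, 119, (⟨0, 0, 0, 0, 1, 1⟩, ⟨-1, -1, 0, -1, 0, 1⟩)),
  (154, 116, (⟨0, 0, 0, 1, 0, 0⟩, ⟨0, -1, -1, 0, 1, 0⟩)),
  (0, 7, (⟨1, 1, 0, 1, 0, 0⟩, ⟨0, 1, 0, -1, -1, -1⟩)),
  (2, 0, (⟨1, 2, 1, 0, 0, 0⟩, ⟨0, 0, 0, 1, 0, 0⟩)),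
  (146, 139, (⟨1, 1, 0, 0, 0, 0⟩, ⟨0, 1, 1, 0, -1, -1⟩)),
  (135, 0, (⟨1, 1, 0, 0, 0, -1⟩, ⟨0, 0, -1, 0, 1, 1⟩)),
  (125, 0, (⟨0, 0, 1, 0, 0, 0⟩, ⟨-1, -1, 0, 1, 0, 1⟩)),
  (94, 0, (⟨1, 0, 1, 0, 0, 0⟩, ⟨1, 1, 0, 0, 0, 0⟩)),
  (34, 1, (⟨0, 1, -1, 0, 0, -1⟩, ⟨0, 0, -1, 0, 1, 1⟩)),
  (57, 0, (⟨0, 1, -1, 0, 0, 0⟩, ⟨-1, 1, 0, 0, -1, -1⟩)),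
  (37, 0, (⟨0, 0, 1, 0, 0, 0⟩, ⟨-1, 1, 0, 1, 0, 0⟩)),
  (162, 138, (⟨0, 0, 1, 1, 0, 0⟩, ⟨0, -1, 0, 1, -1, -1⟩)),
  (158, 0, (⟨0, 1, 0, 0, 1, 1⟩, ⟨0, 0, -1, -1, 0, 1⟩)),
  (125, 0, (⟨0, 1, 0, 0, 0, 0⟩, ⟨-1, 0, 1, 1, 0, -1⟩)),
  (137, 0, (⟨0, 0, 1, 1, 0, 0⟩, ⟨0, 1, -1, 0, 0, 0⟩)),
  (165, 142, (⟨0, 0, 1, 1, 0, 0⟩, ⟨1, 0, 0, 1, -1, -1⟩)),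
  (161, 0, (⟨1, 0, 0, 0, -1, -1⟩, ⟨0, 0, 1, 1, 0, -1⟩)),
  (129, 0, (⟨1, 0, 0, 0, 0, 0⟩, ⟨0, 1, -1, -1, 0, 1⟩)),
  (115, 0, (⟨1, 0, 1, 0, 0, 0⟩, ⟨0, 0, 1, 1, 0, 0⟩)),
  (145, 0, (⟨1, -1, 1, 1, 0, 0⟩, ⟨1, 0, 0, 0, 0, 0⟩)),
  (48, 2, (⟨1, 0, 0, 0, -1, -1⟩, ⟨-1, 0, 0, 1, 0, -1⟩)),
  (0, 71, (⟨1, 0, 0, -1, 0, 0⟩, ⟨0, 0, 1, -1, 1, 1⟩)),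
  (51, 0, (⟨1, 0, 0, 0, 0, 0⟩, ⟨-1, 1, -1, 1, 0, 0⟩)),
  (62, 7, (⟨1, 0, 0, 0, -1, -1⟩, ⟨0, 0, 1, 1, 1, 0⟩)),
  (120, 0, (⟨1, 0, 1, 1, 0, 0⟩, ⟨1, 0, -1, 0, -1, -1⟩)),
  (115, 0, (⟨1, 0, 0, 0, 0, 0⟩, ⟨1, 1, 2, 1, 0, 0⟩)),
  (175, 147, (⟨1, 1, 0, 0, 0, 0⟩, ⟨0, 1, -1, -1, 0, -1⟩)),
  (143, 0, (⟨1, 1, 0, -1, 0, 0⟩, ⟨0, 0, 1, 1, 0, 1⟩)),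
  (162, 0, (⟨0, 0, 0, 0, 0, 1⟩, ⟨1, 1, 0, -1, -1, 0⟩)),
  (160, 0, (⟨1, 1, 0, 0, 0, 0⟩, ⟨0, 1, 0, 0, 0, 1⟩)),
  (164, 144, (⟨0, 0, 1, 1, 0, 0⟩, ⟨-1, -1, 0, 1, 0, -1⟩)),
  (140, 3, (⟨1, 1, 0, 0, 0, 1⟩, ⟨0, 1, -1, -1, 0, -1⟩)),
  (1, 0, (⟨1, 2, 0, 0, 1, 0⟩, ⟨0, 0, 0, 0, 0, 1⟩)),
  (136, 2, (⟨1, 1, 0, 0, 0, 1⟩, ⟨0, 0, -1, -1, -1, 0⟩)),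
  (102, 0, (⟨1, 1, 0, 0, 0, 0⟩, ⟨0, 1, 1, 1, 1, 0⟩)),
  (155, 0, (⟨0, 0, 1, 1, 0, 0⟩, ⟨1, 1, -1, 0, 0, 0⟩)),
  (162, 0, (⟨1, 1, 0, 0, 0, 0⟩, ⟨0, 1, 1, 1, 0, 0⟩)),
  (8, 29, (⟨0, 0, 1, 0, 0, 1⟩, ⟨-1, -1, 0, 1, 0, 0⟩)),
  (103, 0, (⟨1, 1, 0, 0, 0, -1⟩, ⟨-1, 0, -1, 0, 0, -1⟩)),
  (0, 32, (⟨2, 1, 0, 0, 1, 0⟩, ⟨0, 0, 0, 0, 0, 1⟩)),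
  (193, 156, (⟨0, 0, 0, 1, 0, 0⟩, ⟨0, -1, -1, 0, 0, -1⟩)),
  (117, 0, (⟨0, 1, 0, 0, 0, 1⟩, ⟨0, 0, 0, -1, -1, 0⟩)),
  (173, 0, (⟨0, 1, 0, 0, 0, 0⟩, ⟨-1, 0, 0, 1, 1, 0⟩)),
  (165, 0, (⟨0, 0, 0, 1, 0, 0⟩, ⟨0, 1, -1, 0, 0, 0⟩)),
  (170, 0, (⟨0, 1, 0, 0, 0, 0⟩, ⟨-1, 0, 0, 1, 0, 0⟩)),
  (148, 109, (⟨0, 0, 0, 0, 1, 0⟩, ⟨1, 1, 1, 1, 0, 1⟩)),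
  (154, 0, (⟨0, 1, 0, 0, 1, 0⟩, ⟨-1, 0, -1, -1, 1, 0⟩)),
  (13, 0, (⟨0, 0, 1, 1, 0, 0⟩, ⟨-1, -2, 0, 1, -1, -1⟩)),
  (175, 0, (⟨1, 1, 1, 1, 0, 0⟩, ⟨1, 2, 0, 0, 0, 0⟩)),
  (0, 175, (⟨1, 2, 1, 0, 0, 0⟩, ⟨0, 0, 1, 1, 0, 0⟩)),
  (2, 161, (⟨0, 1, -1, -1, 0, 0⟩, ⟨-1, -2, 0, 0, -1, -1⟩)),
  (52, 0, (⟨1, 2, 0, -1, 0, 0⟩, ⟨0, 0, 1, 1, 1, 1⟩)),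
  (114, 0, (⟨1, 2, 0, 0, 0, 0⟩, ⟨0, 1, -1, -1, -1, -1⟩)),
  (3, 0, (⟨1, 2, 0, 0, 1, 0⟩, ⟨0, 0, 0, 0, 1, 1⟩)),
  (195, 0, (⟨1, 1, 0, 0, 1, 1⟩, ⟨1, 2, 0, 0, 0, 0⟩)),
  (192, 177, (⟨0, 1, 0, 0, 0, 0⟩, ⟨-1, 0, 1, 0, 1, 0⟩)),
  (0, 98, (⟨0, 0, 1, 0, 0, 0⟩, ⟨0, 1, 0, 1, -1, 0⟩)),
  (51, 0, (⟨1, 1, -1, 0, 0, 0⟩, ⟨0, 1, 1, 0, -1, -1⟩)),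
  (0, 160, (⟨0, 0, 1, 0, 0, 0⟩, ⟨1, 2, 0, 1, 0, 0⟩)),
  (196, 131, (⟨0, 1, 0, 0, 0, 0⟩, ⟨-1, 0, 1, 0, -1, 0⟩)),
  (190, 0, (⟨0, 1, 0, 0, 0, -1⟩, ⟨0, 0, -1, 0, 1, 0⟩)),
  (132, 0, (⟨0, 0, 1, 0, 0, 0⟩, ⟨1, -1, 0, 1, 1, 1⟩)),
  (145, 0, (⟨1, 0, 1, 0, 0, 0⟩, ⟨-1, 1, 0, 0, 0, 0⟩)),
  (189, 0, (⟨0, 0, 1, 0, 0, 0⟩, ⟨1, -1, 0, 1, 0, 0⟩)),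
  (204, 161, (⟨1, 0, 0, 0, 0, 0⟩, ⟨0, 1, 0, -1, 0, 1⟩)),
  (198, 0, (⟨1, 0, 0, 0, -1, 0⟩, ⟨0, 0, 0, 1, 0, -1⟩)),
  (143, 0, (⟨1, 0, 0, 0, 0, 0⟩, ⟨0, 1, 1, -1, 1, 1⟩)),
  (160, 0, (⟨1, 0, 1, 0, 0, 0⟩, ⟨1, 0, 0, 1, 0, 0⟩)),
  (165, 27, (⟨1, 0, 0, 1, 0, 0⟩, ⟨0, 1, 0, 0, 0, 1⟩)),
  (0, 3, (⟨0, 0, 0, 1, 0, 0⟩, ⟨1, -1, -1, 0, -1, -1⟩)),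
  (132, 0, (⟨1, 0, 0, 1, 0, 0⟩, ⟨-1, 1, 0, 0, 0, 0⟩)),
  (0, 197, (⟨-1, 1, 1, 0, 0, 0⟩, ⟨0, 0, 0, 1, 0, 0⟩)),
  (210, 3, (⟨0, 0, 0, 0, 0, 1⟩, ⟨1, 0, 0, 1, -1, 0⟩)),
  (135, 180, (⟨0, 0, 0, 1, 0, 0⟩, ⟨-1, -1, -1, 0, -1, -1⟩)),
  (0, 8, (⟨1, 0, 0, 1, 0, 0⟩, ⟨2, 1, 0, 0, 0, 1⟩)),
  (2, 0, (⟨2, 1, 1, 0, 0, 0⟩, ⟨0, 0, 0, 1, 0, 0⟩)),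
  (221, 150, (⟨0, 0, 0, 0, 0, 1⟩, ⟨1, 0, -1, 0, -1, 0⟩)),
  (160, 183, (⟨0, 0, 1, 0, 0, 0⟩, ⟨1, 1, 0, 1, 1, 1⟩)),
  (0, 138, (⟨1, 0, -1, 0, 0, 0⟩, ⟨2, 1, 0, 0, 0, 1⟩)),
  (2, 0, (⟨0, 0, 1, 0, 0, 0⟩, ⟨2, 1, 0, 1, 0, 0⟩)),
  (209, 15, (⟨0, 0, 0, 1, 0, -1⟩, ⟨-1, 0, 0, 1, 1, 0⟩)),
  (36, 159, (⟨0, 0, 0, 1, 0, 0⟩, ⟨0, 1, -1, 0, -1, 0⟩)),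
  (1, 0, (⟨1, 0, 0, -1, 0, 0⟩, ⟨0, 1, 0, -1, 0, 1⟩)),
  (0, 193, (⟨1, -1, 1, 0, 0, 0⟩, ⟨0, 0, 0, 1, 0, 0⟩)),
  (123, 225, (⟨0, 0, 0, 0, 1, 0⟩, ⟨-1, 0, 0, 0, 0, 1⟩)),
  (54, 61, (⟨1, 0, 1, 1, 0, 0⟩, ⟨2, 1, 0, 0, -1, 0⟩)),
  (1, 0, (⟨0, 0, 1, 1, 0, 0⟩, ⟨-2, -1, 0, 1, 1, 0⟩)),
  (200, 0, (⟨1, 0, 1, 1, 0, 0⟩, ⟨2, 1, 0, 0, 0, 0⟩)),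
  (214, 0, (⟨2, 1, 1, 0, 0, 0⟩, ⟨0, 0, 1, 1, 0, 0⟩)),
  (209, 42, (⟨0, 0, 1, 1, 0, 0⟩, ⟨0, -1, 0, 1, -1, 0⟩)),
  (159, 43, (⟨0, 1, 1, 0, 0, 0⟩, ⟨0, 0, 1, 1, -1, 0⟩)),
  (103, 0, (⟨0, 1, 0, 0, 1, 0⟩, ⟨-1, 0, -1, -1, 2, 0⟩)),
  (2, 0, (⟨0, 0, 0, 0, 1, 0⟩, ⟨1, 2, 0, 0, 0, 1⟩)),
  (244, 177, (⟨0, 1, 1, 0, 0, 0⟩, ⟨0, 0, 1, 1, 0, -1⟩)),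
  (185, 0, (⟨1, 0, 1, 1, 0, -1⟩, ⟨0, 1, 1, 0, 1, 1⟩)),
  (180, 0, (⟨1, 0, 1, 1, 0, 0⟩, ⟨0, -1, -2, 0, -1, -1⟩)),
  (186, 0, (⟨2, 0, 1, 1, 0, 0⟩, ⟨0, 1, 1, 0, 0, 0⟩)),
  (235, 191, (⟨1, 0, 0, 1, 0, 0⟩, ⟨0, 1, 0, 0, 0, -1⟩)),
  (223, 0, (⟨0, 0, 0, 1, 0, 0⟩, ⟨0, -1, -1, 0, 0, 1⟩)),
  (252, 183, (⟨0, 1, 1, 0, 0, 0⟩, ⟨0, 0, 0, 1, 0, -1⟩)),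
  (165, 0, (⟨0, 1, 0, 0, 0, -1⟩, ⟨-1, 1, 0, -1, 0, 0⟩)),
  (2, 0, (⟨1, -1, 0, 0, 1, 0⟩, ⟨0, 0, 0, 0, 0, 1⟩)),
  (256, 163, (⟨0, 0, 0, 0, 1, 1⟩, ⟨-1, 0, 0, -1, 0, 1⟩)),
  (164, 3, (⟨1, 0, 0, 1, 0, -1⟩, ⟨0, 1, 1, 0, 1, 1⟩)),
  (189, 0, (⟨1, 0, 0, 1, 0, 0⟩, ⟨0, -1, -2, 0, -1, -1⟩)),
  (2, 0, (⟨2, 0, 0, 1, 0, 0⟩, ⟨0, 1, 1, 0, 0, 0⟩)),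
  (245, 186, (⟨0, 0, 0, 0, 1, 1⟩, ⟨0, -1, -1, 0, 0, 1⟩)),
  (226, 219, (⟨0, 0, 0, 0, 1, 1⟩, ⟨-1, -1, -1, -1, 0, 1⟩)),
  (0, 3, (⟨0, 1, 1, 0, 0, 0⟩, ⟨-2, 0, 0, -1, -1, -1⟩)),
  (2, 0, (⟨0, 1, 2, 0, 0, 0⟩, ⟨1, 0, 0, 1, 0, 0⟩)),
  (20, 261, (⟨0, 0, 0, 0, 1, 0⟩, ⟨0, 0, -1, -1, 0, 1⟩)),
  (261, 237, (⟨1, 0, 0, 1, 0, 0⟩, ⟨1, 0, -1, 0, 0, 0⟩)),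
  (0, 132, (⟨1, 0, 0, 0, 0, 1⟩, ⟨0, 1, 1, 1, 0, 0⟩)),
  (100, 0, (⟨0, 0, 1, 1, 0, 0⟩, ⟨1, -1, 0, 1, -1, 0⟩)),
  (3, 0, (⟨1, 0, 1, 1, 0, 0⟩, ⟨-1, 1, 0, 0, 0, 0⟩)),
  (254, 213, (⟨1, 0, 0, 0, -1, 0⟩, ⟨1, 1, 1, 0, 0, 0⟩)),
  (214, 30, (⟨0, 0, 1, 1, 1, 0⟩, ⟨-2, -1, -1, 0, 1, 0⟩)),
  (92, 0, (⟨1, 1, 1, 0, 0, 1⟩, ⟨0, 1, 0, -1, -1, 1⟩)),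
  (2, 0, (⟨1, 0, 1, 1, 0, 0⟩, ⟨0, -1, -1, 1, 0, -1⟩)),
  (184, 0, (⟨2, 0, 1, 1, 0, 0⟩, ⟨1, 1, 1, 0, 0, 0⟩)),
  (265, 47, (⟨0, 0, 0, 1, 0, 0⟩, ⟨0, 0, -1, 0, 0, 1⟩)),
  (0, 138, (⟨0, 0, 0, 0, 0, 1⟩, ⟨1, -1, 0, 1, -1, 0⟩)),
  (3, 206, (⟨1, -1, 0, 1, 0, 0⟩, ⟨1, 1, 1, 0, 0, 1⟩)),
  (1, 0, (⟨1, 1, 2, 0, 0, 0⟩, ⟨1, 0, 1, 1, 0, 0⟩)),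
  (55, 24, (⟨0, 0, 0, 0, 0, 1⟩, ⟨1, -1, -1, 1, -1, 0⟩)),
  (127, 220, (⟨1, 1, 1, 0, 0, 1⟩, ⟨0, 1, 1, -1, -1, 0⟩)),
  (265, 127, (⟨1, 1, 1, 0, 0, 0⟩, ⟨-1, 0, 0, 0, 1, 1⟩)),
  (1, 0, (⟨1, 0, 0, 1, 0, 0⟩, ⟨0, -1, -2, 1, 0, -1⟩)),
  (212, 0, (⟨2, 0, 0, 1, 0, 1⟩, ⟨1, 1, 1, 0, 0, 1⟩)),
  (4, 0, (⟨1, 1, 2, 0, 0, 0⟩, ⟨1, 0, 0, 1, 0, 0⟩))]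

/-- positions of the targets -/
def idxB : List ℕ := [
  286, 286, 286, 286, 188, 284, 122, 67, 285, 285, 122, 67, 284, 284, 236, 67, 286, 163, 237, 59,
  283, 283, 86, 24, 282, 282, 133, 59, 107, 280, 264, 15, 281, 281, 115, 33, 280, 280, 93, 15,
  282, 104, 41, 238, 80, 111, 93, 6, 151, 144, 278, 278, 176, 201, 277, 277, 233, 144, 184, 235,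
  234, 147, 276, 276, 181, 215, 275, 275, 100, 147, 180, 226, 249, 154, 274, 274, 156, 210, 273, 273,
  130, 154, 183, 222, 160, 241, 76, 218, 232, 209, 271, 271, 271, 271, 185, 269, 270, 270, 266, 46,
  111, 62, 269, 269, 265, 66, 271, 164, 266, 58, 268, 268, 85, 20, 265, 119, 267, 267, 119, 265,
  54, 268, 126, 270, 133, 0, 50, 267, 71, 269, 267, 50, 42, 281, 81, 110, 94, 10, 263, 263,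
  263, 263, 174, 207, 262, 262, 262, 262, 189, 231, 261, 261, 261, 261, 179, 225, 260, 260, 260, 260,
  178, 216, 259, 259, 259, 259, 158, 191, 258, 258, 258, 258, 187, 212, 257, 257, 257, 257, 230, 220,
  256, 256, 256, 256, 256, 256, 255, 255, 251, 28, 255, 255, 254, 254, 250, 143, 254, 254, 251, 148,
  253, 253, 239, 214, 250, 137, 252, 252, 172, 205, 90, 253, 97, 255, 229, 203, 140, 252, 37, 254,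
  166, 228, 161, 274, 75, 219, 182, 211, 248, 248, 248, 248, 248, 248, 247, 247, 247, 247, 247, 247,
  246, 246, 246, 246, 240, 224, 245, 245, 245, 245, 168, 199, 244, 244, 244, 244, 197, 195, 243, 243,
  243, 243, 170, 193, 242, 242, 242, 242, 186, 221]

theorem certB_check : run G0list.reverse stepsB (idxB.zip (G0list.flatMap six)) = true := by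
  decide +kernel

/-- the images of `G0list` under the six elementary maps are generated by `G0list` -/
theorem certB (g t : P6) (hg : g ∈ G0list) (ht : t ∈ six g) : Der (fun p => p ∈ G0list) t := by
  have hlen : idxB.length = (G0list.flatMap six).length := by decide +kernel
  have h := run_sound (S := fun p => p ∈ G0list) certB_check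
    (fun p hp => ⟨Der.base p (List.mem_reverse.mp hp), G0_symp p (List.mem_reverse.mp hp)⟩)
  obtain ⟨n, hn⟩ := exists_zip hlen (List.mem_flatMap.mpr ⟨g, hg, ht⟩)
  exact h (n, t) hn

end Pool.Agent.Torelli.PG
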