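import Pool.Agent.Torelli.PG.PGL

/-!
# Torelli project, part PG: the closure `Cl s h` is invariant under `M s h`
-/

set_option autoImplicit false

namespace Pool.Agent.Torelli.PG

open Pool.Agent.Torelli

theorem act_Tb_inv' (i : ℕ) (v : Lat) : act (Tb i)⁻¹ v = v - v (2 * i) • eb i := by
  symm
  rw [← act_eq_iff, act_Tb, Finsupp.sub_apply, Finsupp.smul_apply, eb_even, smul_zero, sub_zero,
    sub_add_cancel]

theorem act_P_inv' (i : ℕ) (v : Lat) :
    act (P i)⁻¹ v = v + v (2 * i + 1) • ea (i + 1) + v (2 * (i + 1) + 1) • ea i := by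
  symm
  rw [← act_eq_iff, act_P]
  simp only [Finsupp.add_apply, Finsupp.smul_apply, ea_odd, smul_zero, add_zero]
  abel

section
variable {i j k : ℕ}

theorem act_Ta_em (hij : i ≠ j) (hik : i ≠ k) (hjk : j ≠ k) (x : V6) :
    act (Ta i) (em i j k x) = em i j k (ta6 1 x) := by
  rw [act_Ta, (em_coord hij hik hjk x).2.1]
  simp only [em, ta6, one_mul, add_smul]
  abel

theorem act_Ta_inv_em (hij : i ≠ j) (hik : i ≠ k) (hjk : j ≠ k) (x : V6) :
    act (Ta i)⁻¹ (em i j k x) = em i j k (ta6 (-1) x) := by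
  rw [act_Ta_inv, (em_coord hij hik hjk x).2.1]
  simp only [em, ta6, neg_mul, one_mul, add_smul, neg_smul]
  abel

theorem act_Tb_em (hij : i ≠ j) (hik : i ≠ k) (hjk : j ≠ k) (x : V6) :
    act (Tb i) (em i j k x) = em i j k (tb6 1 x) := by
  rw [act_Tb, (em_coord hij hik hjk x).1]
  simp only [em, tb6, one_mul, add_smul]
  abel

theorem act_Tb_inv_em (hij : i ≠ j) (hik : i ≠ k) (hjk : j ≠ k) (x : V6) :
    act (Tb i)⁻¹ (em i j k x) = em i j k (tb6 (-1) x) := by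
  rw [act_Tb_inv', (em_coord hij hik hjk x).1]
  simp only [em, tb6, neg_mul, one_mul, add_smul, neg_smul]
  abel

theorem act_P_em (hik : i ≠ k) (hjk : i + 1 ≠ k) (x : V6) :
    act (P i) (em i (i + 1) k x) = em i (i + 1) k (tp6 1 x) := by
  have hij : i ≠ i + 1 := by omega
  rw [act_P, (em_coord hij hik hjk x).2.1, (em_coord hij hik hjk x).2.2.2.1]
  simp only [em, tp6, one_mul, sub_smul]
  abel

theorem act_P_inv_em (hik : i ≠ k) (hjk : i + 1 ≠ k) (x : V6) :
    act (P i)⁻¹ (em i (i + 1) k x) = em i (i + 1) k (tp6 (-1) x) := by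
  have hij : i ≠ i + 1 := by omega
  rw [act_P_inv', (em_coord hij hik hjk x).2.1, (em_coord hij hik hjk x).2.2.2.1]
  simp only [em, tp6, neg_mul, one_mul, sub_smul, neg_smul]
  abel

end

theorem Cl_cj {s h : ℕ} {T : MulAut F}
    (hbase : ∀ t i j, s ≤ i → i < s + h → s ≤ j → j < s + h → i ≠ j → Cl s h (cj T (plp t i j)))
    {p : EV} (hp : Cl s h p) : Cl s h (cj T p) := by
  induction hp with
  | base t i j h1 h2 h3 h4 h5 => exact hbase t i j h1 h2 h3 h4 h5
  | add p q _ _ h1 h2 ihp ihq =>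
    rw [cj_add]
    exact Cl.add _ _ ihp ihq (by rw [← cj_mul, h1, cj_zero]) (by rw [← cj_mul, h2, cj_zero])
  | sub p q _ _ h1 h2 ihp ihq =>
    rw [cj_sub]
    exact Cl.sub _ _ ihp ihq (by rw [← cj_mul, h1]) (by rw [← cj_mul, h2])

theorem cj_plp_fix {T : MulAut F} (hT : T ∈ PresOm) {i j : ℕ} (h1 : act T (ea i) = ea i)
    (h2 : act T (eb i) = eb i) (h3 : act T (ea j) = ea j) (h4 : act T (eb j) = eb j) (t : Ty) :
    cj T (plp t i j) = plp t i j := by
  rw [plp, cj_pr hT]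
  cases t <;> simp only [pl, map_add, h1, h2, h3, h4]

theorem third {s h i j : ℕ} (hh : 3 ≤ h) : ∃ k, (s ≤ k ∧ k < s + h) ∧ k ≠ i ∧ k ≠ j := by
  by_cases h1 : s ≠ i ∧ s ≠ j
  · exact ⟨s, ⟨le_rfl, by omega⟩, h1.1, h1.2⟩
  · by_cases h2 : s + 1 ≠ i ∧ s + 1 ≠ j
    · exact ⟨s + 1, ⟨by omega, by omega⟩, h2.1, h2.2⟩
    · exact ⟨s + 2, ⟨by omega, by omega⟩, by omega, by omega⟩

/-- maps supported on one handle -/
theorem Cl_one {s h l : ℕ} (hh : 3 ≤ h) (hl : s ≤ l ∧ l < s + h) {T : MulAut F}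
    (hT : T ∈ M l 1) {T6 : V6 → V6}
    (hem : ∀ j k, l ≠ j → l ≠ k → j ≠ k → ∀ x, act T (em l j k x) = em l j k (T6 x))
    (h6 : ∀ g, (T6 g.1, T6 g.2) ∈ six g) {p : EV} (hp : Cl s h p) : Cl s h (cj T p) := by
  have hTo : T ∈ PresOm := fun v w => M_om hT v w
  refine Cl_cj (fun t i j h1 h2 h3 h4 hij => ?_) hp
  have main : ∀ j k, s ≤ j ∧ j < s + h → s ≤ k ∧ k < s + h → l ≠ j → l ≠ k → j ≠ k →
      ∀ a b, a ≠ b → Cl s h (cj T (plp t (hd l j k a) (hd l j k b))) := by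
    intro j k hj hk hlj hlk hjk a b hab
    have hg := pl6_mem t a b hab
    generalize hgg : pl6 t a b = g at hg
    have e : cj T (plp t (hd l j k a) (hd l j k b)) = PR l j k (T6 g.1, T6 g.2) := by
      rw [← PR_pl6, hgg, PR, cj_pr hTo, hem j k hlj hlk hjk, hem j k hlj hlk hjk, PR]
    rw [e]
    exact six_mem hl hj hk hlj hlk hjk hg (h6 g)
  by_cases hi : i = l
  · subst hi
    obtain ⟨k, hk, hki, hkj⟩ := third (s := s) (i := i) (j := j) hh
    exact main j k ⟨h3, h4⟩ hk hij hki.symm hkj.symm 0 1 (by decide)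
  · by_cases hj : j = l
    · subst hj
      obtain ⟨k, hk, hki, hkj⟩ := third (s := s) (i := i) (j := j) hh
      exact main i k ⟨h1, h2⟩ hk hij.symm hkj.symm hki.symm 1 0 (by decide)
    · rw [cj_plp_fix hTo (M_fix_ea hT (by omega)) (M_fix_eb hT (by omega))
        (M_fix_ea hT (by omega)) (M_fix_eb hT (by omega))]
      exact Cl.base t i j h1 h2 h3 h4 hij

/-- maps supported on two consecutive handles -/
theorem Cl_two {s h l : ℕ} (hh : 3 ≤ h) (hl : s ≤ l ∧ l + 1 < s + h) {T : MulAut F}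
    (hT : T ∈ M l 2) {T6 : V6 → V6}
    (hem : ∀ k, l ≠ k → l + 1 ≠ k → ∀ x, act T (em l (l + 1) k x) = em l (l + 1) k (T6 x))
    (h6 : ∀ g, (T6 g.1, T6 g.2) ∈ six g) {p : EV} (hp : Cl s h p) : Cl s h (cj T p) := by
  have hTo : T ∈ PresOm := fun v w => M_om hT v w
  refine Cl_cj (fun t i j h1 h2 h3 h4 hij => ?_) hp
  have main : ∀ k, s ≤ k ∧ k < s + h → l ≠ k → l + 1 ≠ k →
      ∀ a b, a ≠ b → Cl s h (cj T (plp t (hd l (l + 1) k a) (hd l (l + 1) k b))) := by
    intro k hk hlk hjk a b hab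
    have hg := pl6_mem t a b hab
    generalize hgg : pl6 t a b = g at hg
    have e : cj T (plp t (hd l (l + 1) k a) (hd l (l + 1) k b)) =
        PR l (l + 1) k (T6 g.1, T6 g.2) := by
      rw [← PR_pl6, hgg, PR, cj_pr hTo, hem k hlk hjk, hem k hlk hjk, PR]
    rw [e]
    exact six_mem ⟨hl.1, by omega⟩ ⟨by omega, hl.2⟩ hk (by omega) hlk hjk hg (h6 g)
  by_cases hi : i = l
  · subst hi
    by_cases hj : j = i + 1
    · subst hj
      obtain ⟨k, hk, hki, hkj⟩ := third (s := s) (i := i) (j := i + 1) hh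
      exact main k hk hki.symm hkj.symm 0 1 (by decide)
    · exact main j ⟨h3, h4⟩ hij (Ne.symm hj) 0 2 (by decide)
  · by_cases hi' : i = l + 1
    · subst hi'
      by_cases hj : j = l
      · subst hj
        obtain ⟨k, hk, hki, hkj⟩ := third (s := s) (i := j) (j := j + 1) hh
        exact main k hk hki.symm hkj.symm 1 0 (by decide)
      · exact main j ⟨h3, h4⟩ (Ne.symm hj) hij 1 2 (by decide)
    · by_cases hj : j = l
      · subst hj
        exact main i ⟨h1, h2⟩ (Ne.symm hi) (Ne.symm hi') 2 0 (by decide)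
      · by_cases hj' : j = l + 1
        · subst hj'
          exact main i ⟨h1, h2⟩ (Ne.symm hi) (Ne.symm hi') 2 1 (by decide)
        · rw [cj_plp_fix hTo (M_fix_ea hT (by omega)) (M_fix_eb hT (by omega))
            (M_fix_ea hT (by omega)) (M_fix_eb hT (by omega))]
          exact Cl.base t i j h1 h2 h3 h4 hij

/-- `Cl s h` is invariant under `M s h`. -/
theorem Cl_M {s h : ℕ} (hh : 3 ≤ h) {θ : MulAut F} (hθ : θ ∈ M s h) {p : EV}
    (hp : Cl s h p) : Cl s h (cj θ p) := by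
  let K : Subgroup (MulAut F) :=
    { carrier := {θ | (∀ p, Cl s h p → Cl s h (cj θ p)) ∧ ∀ p, Cl s h p → Cl s h (cj θ⁻¹ p)}
      one_mem' := ⟨fun p hp => by rwa [one_cj], fun p hp => by rwa [inv_one, one_cj]⟩
      mul_mem' := fun {φ ψ} hφ hψ => ⟨fun p hp => by
          rw [← cj_cj]; exact hφ.1 _ (hψ.1 _ hp), fun p hp => by
          rw [mul_inv_rev, ← cj_cj]; exact hψ.2 _ (hφ.2 _ hp)⟩
      inv_mem' := fun {φ} hφ => ⟨hφ.2, fun p hp => by rw [inv_inv]; exact hφ.1 p hp⟩ }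
  have : M s h ≤ K := by
    refine M_le (fun i h1 h2 => ?_) (fun i h1 h2 => ?_) (fun i h1 h2 => ?_)
    · have hm : Ta i ∈ M i 1 := Ta_mem_M le_rfl (by omega)
      exact ⟨fun p hp => Cl_one hh ⟨h1, h2⟩ hm (T6 := ta6 1)
          (fun j k a b c x => act_Ta_em a b c x) (fun g => by simp [six]) hp,
        fun p hp => Cl_one hh ⟨h1, h2⟩ (inv_mem hm) (T6 := ta6 (-1))
          (fun j k a b c x => act_Ta_inv_em a b c x) (fun g => by simp [six]) hp⟩
    · have hm : Tb i ∈ M i 1 := Tb_mem_M le_rfl (by omega)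
      exact ⟨fun p hp => Cl_one hh ⟨h1, h2⟩ hm (T6 := tb6 1)
          (fun j k a b c x => act_Tb_em a b c x) (fun g => by simp [six]) hp,
        fun p hp => Cl_one hh ⟨h1, h2⟩ (inv_mem hm) (T6 := tb6 (-1))
          (fun j k a b c x => act_Tb_inv_em a b c x) (fun g => by simp [six]) hp⟩
    · have hm : P i ∈ M i 2 := P_mem_M le_rfl (by omega)
      exact ⟨fun p hp => Cl_two hh ⟨h1, h2⟩ hm (T6 := tp6 1)
          (fun k a b x => act_P_em a b x) (fun g => by simp [six]) hp,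
        fun p hp => Cl_two hh ⟨h1, h2⟩ (inv_mem hm) (T6 := tp6 (-1))
          (fun k a b x => act_P_inv_em a b x) (fun g => by simp [six]) hp⟩
  exact (this hθ).1 p hp

end Pool.Agent.Torelli.PG
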