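import Pool.Agent.Torelli.PG.Sl
import Pool.Agent.Torelli.Words

/-!
# Torelli project, part PG: loops

`CD D s h` = projections `cj θ (eI s k)` such that the loop `θ (zeta s k)` is in `D`.
It is closed; with the lattice theorem `pgl` this gives `pg_strong` and `pgStmt`.
-/

set_option autoImplicit false

namespace Pool.Agent.Torelli.PG

open Pool.Agent.Torelli

theorem om_pr (u v x z : Lat) : om (pr u v x) z = om x (pr u v z) := by
  rw [pr_apply, pr_apply]
  simp only [map_sub, map_zsmul, AddMonoidHom.sub_apply, AddMonoidHom.coe_smul, Pi.smul_apply,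
    smul_eq_mul]
  rw [om_swap z v, om_swap z u]
  ring

theorem om_eI (s k : ℕ) (x z : Lat) : om (eI s k x) z = om x (eI s k z) := by
  induction k with
  | zero => rw [eI_zero, EV_zero, EV_zero, map_zero, map_zero, AddMonoidHom.zero_apply]
  | succ k ih =>
    rw [eI_succ, EV_add, EV_add, map_add, map_add, AddMonoidHom.add_apply, ih, om_pr]

theorem om_cj_eI {φ : MulAut F} (hφ : φ ∈ PresOm) (s k : ℕ) (x z : Lat) :
    om (cj φ (eI s k) x) z = om x (cj φ (eI s k) z) := by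
  have e1 : om (act φ (eI s k (act φ⁻¹ x))) z = om (eI s k (act φ⁻¹ x)) (act φ⁻¹ z) := by
    rw [← hφ (eI s k (act φ⁻¹ x)) (act φ⁻¹ z), act_act_inv]
  have e2 : om x (act φ (eI s k (act φ⁻¹ z))) = om (act φ⁻¹ x) (eI s k (act φ⁻¹ z)) := by
    rw [← hφ (act φ⁻¹ x) (eI s k (act φ⁻¹ z)), act_act_inv]
  rw [cj_apply, cj_apply, e1, e2, om_eI]

theorem cj_eI_sum {φ : MulAut F} (hφ : φ ∈ PresOm) (s k : ℕ) : cj φ (eI s k) =
    ∑ j ∈ Finset.range k, pr (act φ (ea (s + j))) (act φ (eb (s + j))) := by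
  rw [eI, cj_sum]
  exact Finset.sum_congr rfl fun j _ => cj_pr hφ _ _

theorem M_PresOm {s h : ℕ} {φ : MulAut F} (hφ : φ ∈ M s h) : φ ∈ PresOm := fun v w => M_om hφ v w

/-- two automorphisms with the same plane of rank `2k` -/
theorem L1 {s h k : ℕ} {D : Subgroup F} (hD : ∀ ψ ∈ Tor s h, ∀ x ∈ D, ψ x ∈ D) (hk : k ≤ h)
    {θ θ' : MulAut F} (hθ : θ ∈ M s h) (hθ' : θ' ∈ M s h)
    (he : cj θ (eI s k) = cj θ' (eI s k)) (h1 : θ (zeta s k) ∈ D) : θ' (zeta s k) ∈ D := by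
  obtain ⟨l, rfl⟩ : ∃ l, h = k + l := ⟨h - k, by omega⟩
  have hg : θ'⁻¹ * θ ∈ M s (k + l) := mul_mem (inv_mem hθ') hθ
  have he' : cj (θ'⁻¹ * θ) (eI s k) = eI s k := by rw [← cj_cj, he, cj_inv_cj]
  obtain ⟨θ1, hθ1, θ2, hθ2, ψ, hψ, e⟩ := SP4 hg (fun v hv => by
    rw [mem_Vs_iff_eI]
    conv_lhs => rw [← he', cj_apply, act_inv_act]
    rw [eI_eq_self hv])
  have f1 : θ1 (zeta s k) = zeta s k := M_zeta hθ1
  have f2 : θ2 (zeta s k) = zeta s k := M_fix_FS hθ2 (Or.inl le_rfl)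
    (zeta_mem_FS (s := s) (h := k) le_rfl le_rfl)
  have e2 : θ' = (θ * ψ⁻¹ * θ⁻¹) * θ * (θ2⁻¹ * θ1⁻¹) := by
    have : θ = θ' * (θ1 * θ2 * ψ) := by rw [← e]; group
    rw [eq_comm]
    calc (θ * ψ⁻¹ * θ⁻¹) * θ * (θ2⁻¹ * θ1⁻¹) = θ * (ψ⁻¹ * θ2⁻¹ * θ1⁻¹) := by group
      _ = θ' * (θ1 * θ2 * ψ) * (ψ⁻¹ * θ2⁻¹ * θ1⁻¹) := by rw [← this]
      _ = θ' := by group
  have f3 : (θ2⁻¹ * θ1⁻¹) (zeta s k) = zeta s k := by
    rw [MulAut.mul_apply, aut_inv_fix f1, aut_inv_fix f2]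
  rw [e2, MulAut.mul_apply, f3, MulAut.mul_apply]
  exact hD _ (Tor_conj (inv_mem hψ) hθ) _ h1

/-- a partial symplectic basis of `Vs s h` has at most `h` pairs -/
theorem PartSymp.le {s h k : ℕ} {p q : ℕ → Lat} (hp : PartSymp s h k p q) : k ≤ h := by
  by_contra hlt
  obtain ⟨θ, hθ, h1⟩ := SP2 k s h p q hp
  have h2 := (h1 h (by omega)).1
  rw [M_fix_ea hθ (Or.inr le_rfl)] at h2
  have h3 := hp.memp h (by omega) (2 * (s + h)) (by omega)
  rw [← h2, ea_even, if_pos rfl] at h3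
  omega

/-- frame of a smaller projection -/
theorem sub_frame {s h k l : ℕ} {θ θ' : MulAut F} (hθ : θ ∈ M s h) (hθ' : θ' ∈ M s h)
    (hl : l ≤ h) (he : cj θ (eI s k) * cj θ' (eI s l) = cj θ' (eI s l)) :
    l ≤ k ∧ ∃ ψ ∈ M s k, cj ψ (eI s l) = cj (θ⁻¹ * θ') (eI s l) := by
  have hg : θ⁻¹ * θ' ∈ M s h := mul_mem (inv_mem hθ) hθ'
  have he' : eI s k * cj (θ⁻¹ * θ') (eI s l) = cj (θ⁻¹ * θ') (eI s l) := by
    have := congrArg (cj θ⁻¹) he
    rwa [cj_mul, cj_inv_cj, cj_cj] at this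
  have hmem : ∀ v ∈ Vs s l, act (θ⁻¹ * θ') v ∈ Vs s k := by
    intro v hv
    rw [mem_Vs_iff_eI]
    have e : cj (θ⁻¹ * θ') (eI s l) (act (θ⁻¹ * θ') v) = act (θ⁻¹ * θ') v := by
      rw [cj_apply, act_inv_act, eI_eq_self hv]
    have := DFunLike.congr_fun he' (act (θ⁻¹ * θ') v)
    rw [EV_mul, e] at this
    exact this
  have hstd := (PartSymp_std (s := s) (h := h) hl).image hg
  have hps : PartSymp s k l (fun i => act (θ⁻¹ * θ') (ea (s + i)))
      (fun i => act (θ⁻¹ * θ') (eb (s + i))) :=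
    ⟨fun i hi => hmem _ (ea_mem_Vs (by omega) (by omega)),
      fun i hi => hmem _ (eb_mem_Vs (by omega) (by omega)), hstd.pp, hstd.qq, hstd.pq⟩
  refine ⟨PartSymp.le hps, ?_⟩
  obtain ⟨ψ, hψ, h1⟩ := SP2 l s k _ _ hps
  refine ⟨ψ, hψ, ?_⟩
  rw [cj_eI_sum (M_PresOm hψ), cj_eI_sum (M_PresOm hg)]
  refine Finset.sum_congr rfl fun j hj => ?_
  have := h1 j (Finset.mem_range.mp hj)
  rw [this.1, this.2]

theorem rank_eq {s h k l : ℕ} {θ θ' : MulAut F} (hθ : θ ∈ M s h) (hθ' : θ' ∈ M s h)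
    (hk : k ≤ h) (hl : l ≤ h) (he : cj θ (eI s k) = cj θ' (eI s l)) : k = l := by
  have id1 : cj θ (eI s k) * cj θ (eI s k) = cj θ (eI s k) := by rw [← cj_mul, eI_idem]
  have h1 := (sub_frame hθ hθ' hl (by rw [← he, id1])).1
  have h2 := (sub_frame hθ' hθ hk (by rw [← he, id1])).1
  omega

/-- common frame of two orthogonal projections -/
theorem orth_frame {s h k l : ℕ} {θ θ' : MulAut F} (hθ : θ ∈ M s h) (hθ' : θ' ∈ M s h)
    (hk : k ≤ h) (hl : l ≤ h) (he : cj θ (eI s k) * cj θ' (eI s l) = 0) :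
    k + l ≤ h ∧ ∃ φ ∈ M s h, cj φ (eI s k) = cj θ (eI s k) ∧
      cj φ (eI (s + k) l) = cj θ' (eI s l) := by
  have p1 := (PartSymp_std (s := s) (h := h) hk).image hθ
  have p2 := (PartSymp_std (s := s) (h := h) hl).image hθ'
  have horth : ∀ x ∈ Vs s k, ∀ y ∈ Vs s l, om (act θ x) (act θ' y) = 0 := by
    intro x hx y hy
    have e1 : cj θ (eI s k) (act θ x) = act θ x := by
      rw [cj_apply, act_inv_act, eI_eq_self hx]
    have e2 : cj θ' (eI s l) (act θ' y) = act θ' y := by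
      rw [cj_apply, act_inv_act, eI_eq_self hy]
    have e3 : cj θ (eI s k) (cj θ' (eI s l) (act θ' y)) = 0 := by
      rw [← EV_mul, he, EV_zero]
    rw [← e1, om_cj_eI (M_PresOm hθ), ← e2, e3, map_zero]
  have horth' : ∀ x ∈ Vs s k, ∀ y ∈ Vs s l, om (act θ' y) (act θ x) = 0 := by
    intro x hx y hy
    rw [om_swap, horth x hx y hy, neg_zero]
  let p : ℕ → Lat := fun i => if i < k then act θ (ea (s + i)) else act θ' (ea (s + (i - k)))
  let q : ℕ → Lat := fun i => if i < k then act θ (eb (s + i)) else act θ' (eb (s + (i - k)))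
  have A1 : ∀ i, i < k → ea (s + i) ∈ Vs s k := fun i hi => ea_mem_Vs (by omega) (by omega)
  have B1 : ∀ i, i < k → eb (s + i) ∈ Vs s k := fun i hi => eb_mem_Vs (by omega) (by omega)
  have A2 : ∀ i, i < l → ea (s + i) ∈ Vs s l := fun i hi => ea_mem_Vs (by omega) (by omega)
  have B2 : ∀ i, i < l → eb (s + i) ∈ Vs s l := fun i hi => eb_mem_Vs (by omega) (by omega)
  have hps : PartSymp s h (k + l) p q := by
    constructor
    · intro i hi
      by_cases h1 : i < k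
      · simp only [p, if_pos h1]; exact p1.memp i h1
      · simp only [p, if_neg h1]; exact p2.memp (i - k) (by omega)
    · intro i hi
      by_cases h1 : i < k
      · simp only [q, if_pos h1]; exact p1.memq i h1
      · simp only [q, if_neg h1]; exact p2.memq (i - k) (by omega)
    · intro i hi j hj
      by_cases h1 : i < k
      · by_cases h2 : j < k
        · simp only [p, if_pos h1, if_pos h2]; exact p1.pp i h1 j h2
        · simp only [p, if_pos h1, if_neg h2]; exact horth _ (A1 i h1) _ (A2 (j - k) (by omega))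
      · by_cases h2 : j < k
        · simp only [p, if_neg h1, if_pos h2]; exact horth' _ (A1 j h2) _ (A2 (i - k) (by omega))
        · simp only [p, if_neg h1, if_neg h2]; exact p2.pp (i - k) (by omega) (j - k) (by omega)
    · intro i hi j hj
      by_cases h1 : i < k
      · by_cases h2 : j < k
        · simp only [q, if_pos h1, if_pos h2]; exact p1.qq i h1 j h2
        · simp only [q, if_pos h1, if_neg h2]; exact horth _ (B1 i h1) _ (B2 (j - k) (by omega))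
      · by_cases h2 : j < k
        · simp only [q, if_neg h1, if_pos h2]; exact horth' _ (B1 j h2) _ (B2 (i - k) (by omega))
        · simp only [q, if_neg h1, if_neg h2]; exact p2.qq (i - k) (by omega) (j - k) (by omega)
    · intro i hi j hj
      by_cases h1 : i < k
      · by_cases h2 : j < k
        · simp only [p, q, if_pos h1, if_pos h2]; exact p1.pq i h1 j h2
        · simp only [p, q, if_pos h1, if_neg h2]
          rw [horth _ (A1 i h1) _ (B2 (j - k) (by omega)), if_neg (by omega)]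
      · by_cases h2 : j < k
        · simp only [p, q, if_neg h1, if_pos h2]
          rw [horth' _ (B1 j h2) _ (A2 (i - k) (by omega)), if_neg (by omega)]
        · simp only [p, q, if_neg h1, if_neg h2]
          have := p2.pq (i - k) (by omega) (j - k) (by omega)
          rw [this]
          by_cases h3 : i = j
          · rw [if_pos h3, if_pos (by omega)]
          · rw [if_neg h3, if_neg (by omega)]
  have hkl : k + l ≤ h := PartSymp.le hps
  refine ⟨hkl, ?_⟩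
  obtain ⟨φ, hφ, h1⟩ := SP2 (k + l) s h _ _ hps
  refine ⟨φ, hφ, ?_, ?_⟩
  · rw [cj_eI_sum (M_PresOm hφ), cj_eI_sum (M_PresOm hθ)]
    refine Finset.sum_congr rfl fun j hj => ?_
    have hj' := Finset.mem_range.mp hj
    have := h1 j (by omega)
    rw [this.1, this.2]
    simp only [p, q, if_pos hj']
  · rw [cj_eI_sum (M_PresOm hφ), cj_eI_sum (M_PresOm hθ')]
    refine Finset.sum_congr rfl fun j hj => ?_
    have hj' := Finset.mem_range.mp hj
    have := h1 (k + j) (by omega)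
    rw [add_assoc, this.1, this.2]
    simp only [p, q, if_neg (show ¬ k + j < k by omega), Nat.add_sub_cancel_left]

/-- moving one handle -/
theorem move_one (s : ℕ) : ∀ k, ∃ τ ∈ M s (k + 1), τ (a s) = a (s + k) ∧ τ (b s) = b (s + k) := by
  intro k
  induction k with
  | zero => exact ⟨1, one_mem _, rfl, rfl⟩
  | succ k ih =>
    obtain ⟨τ, hτ, h1, h2⟩ := ih
    refine ⟨S (s + k) * τ, mul_mem (M_mono (by omega) (by omega) (S_mem (s + k) 2 le_rfl))
      (M_mono le_rfl (by omega) hτ), ?_, ?_⟩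
    · rw [MulAut.mul_apply, h1, S_a0]; rfl
    · rw [MulAut.mul_apply, h2, S_b0]; rfl

/-- moving a block of handles -/
theorem move_block (k : ℕ) : ∀ l s, ∃ ρ ∈ M s (k + l), ∀ j < l, ρ (a (s + j)) = a (s + k + j) ∧
    ρ (b (s + j)) = b (s + k + j) := by
  intro l
  induction l with
  | zero => intro s; exact ⟨1, one_mem _, fun j hj => absurd hj (by omega)⟩
  | succ l ih =>
    intro s
    obtain ⟨ρ, hρ, h1⟩ := ih (s + 1)
    obtain ⟨τ, hτ, h2, h3⟩ := move_one s k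
    refine ⟨τ * ρ, mul_mem (M_mono le_rfl (by omega) hτ) (M_mono (by omega) (by omega) hρ), ?_⟩
    intro j hj
    cases j with
    | zero =>
      rw [MulAut.mul_apply, MulAut.mul_apply, add_zero, add_zero, M_fix_a hρ (by omega),
        M_fix_b hρ (by omega)]
      exact ⟨h2, h3⟩
    | succ j =>
      have h4 := h1 j (by omega)
      have e1 : s + (j + 1) = s + 1 + j := by ring
      have e2 : s + k + (j + 1) = s + 1 + k + j := by ring
      rw [MulAut.mul_apply, MulAut.mul_apply, e1, e2, h4.1, h4.2, M_fix_a hτ (by omega),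
        M_fix_b hτ (by omega)]
      exact ⟨rfl, rfl⟩

theorem block_zeta {ρ : MulAut F} {s t l : ℕ} (h : ∀ j < l, ρ (a (s + j)) = a (t + j) ∧
    ρ (b (s + j)) = b (t + j)) : ρ (zeta s l) = zeta t l := by
  induction l with
  | zero => rw [zeta_zero, zeta_zero, map_one]
  | succ l ih =>
    have hl := h l (by omega)
    rw [zeta_succ, zeta_succ, map_mul, ih fun j hj => h j (by omega)]
    simp only [H, map_mul, map_inv, hl.1, hl.2]

theorem block_eI {ρ : MulAut F} (hρ : ρ ∈ PresOm) {s t l : ℕ}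
    (h : ∀ j < l, ρ (a (s + j)) = a (t + j) ∧ ρ (b (s + j)) = b (t + j)) :
    cj ρ (eI s l) = eI t l := by
  rw [cj_eI_sum hρ, eI]
  refine Finset.sum_congr rfl fun j hj => ?_
  have hj' := h j (Finset.mem_range.mp hj)
  rw [act_ea, act_eb, hj'.1, hj'.2, clv_a, clv_b]

/-- the closed family attached to a subgroup -/
def CD (D : Subgroup F) (s h : ℕ) : Set EV :=
  {p | ∃ k, k ≤ h ∧ ∃ θ ∈ M s h, p = cj θ (eI s k) ∧ θ (zeta s k) ∈ D}

theorem mem_CD {D : Subgroup F} {s h : ℕ} {p : EV} : p ∈ CD D s h ↔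
    ∃ k, k ≤ h ∧ ∃ θ ∈ M s h, p = cj θ (eI s k) ∧ θ (zeta s k) ∈ D := Iff.rfl

theorem CD_closed {s h : ℕ} {D : Subgroup F} (hD : ∀ ψ ∈ Tor s h, ∀ x ∈ D, ψ x ∈ D) :
    Closed (CD D s h) := by
  constructor
  · rintro p q ⟨k, hk, θ, hθ, rfl, h1⟩ ⟨l, hl, θ', hθ', rfl, h2⟩ h3 _
    obtain ⟨hkl, φ, hφ, e1, e2⟩ := orth_frame hθ hθ' hk hl h3
    obtain ⟨ρ, hρ, h4⟩ := move_block k l s
    have hρM : ρ ∈ M s h := M_mono le_rfl (by omega) hρ
    have h5 : φ (zeta s k) ∈ D := L1 hD hk hθ hφ e1.symm h1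
    have h6 : (φ * ρ) (zeta s l) ∈ D := by
      refine L1 hD hl hθ' (mul_mem hφ hρM) ?_ h2
      rw [← cj_cj, block_eI (M_PresOm hρ) h4, e2]
    refine ⟨k + l, hkl, φ, hφ, ?_, ?_⟩
    · rw [eI_add, cj_add, e1, e2]
    · rw [MulAut.mul_apply, block_zeta h4] at h6
      rw [zeta_add, map_mul]
      exact mul_mem h5 h6
  · rintro p q ⟨k, hk, θ, hθ, rfl, h1⟩ ⟨l, hl, θ', hθ', rfl, h2⟩ h3 _
    obtain ⟨hlk, ψ, hψ, e1⟩ := sub_frame hθ hθ' hl h3
    have hψM : ψ ∈ M s h := M_mono le_rfl (by omega) hψ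
    have hφ : θ * ψ ∈ M s h := mul_mem hθ hψM
    have e2 : cj (θ * ψ) (eI s k) = cj θ (eI s k) := by
      rw [← cj_cj, cj_eI hψ (Or.inl ⟨le_rfl, le_rfl⟩)]
    have e3 : cj (θ * ψ) (eI s l) = cj θ' (eI s l) := by
      rw [← cj_cj, e1, cj_cj, mul_inv_cancel_left]
    obtain ⟨m, rfl⟩ : ∃ m, k = l + m := ⟨k - l, by omega⟩
    obtain ⟨ρ, hρ, h4⟩ := move_block l m s
    have hρM : ρ ∈ M s h := M_mono le_rfl (by omega) hρ
    have h5 : (θ * ψ) (zeta s (l + m)) ∈ D := L1 hD hk hθ hφ e2.symm h1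
    have h6 : (θ * ψ) (zeta s l) ∈ D := L1 hD hl hθ' hφ e3.symm h2
    refine ⟨m, by omega, θ * ψ * ρ, mul_mem hφ hρM, ?_, ?_⟩
    · rw [← cj_cj, block_eI (M_PresOm hρ) h4, ← e2, ← e3, eI_add, cj_add]
      abel
    · rw [MulAut.mul_apply, block_zeta h4]
      rw [zeta_add, map_mul] at h5
      have := mul_mem (inv_mem h6) h5
      rwa [inv_mul_cancel_left] at this

/-- **Plane generation for loops.** -/
theorem pg_strong {s h : ℕ} (hh : 3 ≤ h) (D : Subgroup F)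
    (hD : ∀ ψ ∈ Tor s h, ∀ x ∈ D, ψ x ∈ D) (hz : zeta s h ∈ D)
    (hS : ∀ t i j, (t, i, j) ∈ Slt h → ∃ θ ∈ M s h,
      cj θ (eI s 1) = plp t (sg s h i) (sg s h j) ∧ θ (H s) ∈ D) : Delta s h ≤ D := by
  have hC := CD_closed hD
  have hE : eI s h ∈ CD D s h := ⟨h, le_rfl, 1, one_mem _, by rw [one_cj], hz⟩
  have hS' : ∀ t i j, (t, i, j) ∈ Slt h → plp t (sg s h i) (sg s h j) ∈ CD D s h := by
    intro t i j hx
    obtain ⟨θ, hθ, e, h1⟩ := hS t i j hx
    exact ⟨1, by omega, θ, hθ, e.symm, by rw [zeta_one]; exact h1⟩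
  unfold Delta
  rw [Subgroup.closure_le]
  rintro x ⟨θ, hθ, rfl⟩
  obtain ⟨k, hk, θ', hθ', e, h1⟩ := pgl hC hh hE hS' hθ
  rw [← eI_one] at e
  have hk1 := rank_eq hθ hθ' (show 1 ≤ h by omega) hk e
  subst hk1
  have := L1 hD hk hθ' hθ e.symm h1
  rwa [zeta_one] at this

theorem om_pl (t : Ty) {i j : ℕ} (hij : i ≠ j) : om (pl t i j).1 (pl t i j).2 = 1 := by
  cases t <;> simp [pl, om_ea_eb, om_ea_ea, om_eb_eb, om_eb, ea_even, eb_even, hij, hij.symm]

theorem pl_mem (t : Ty) {s h i j : ℕ} (hi : s ≤ i ∧ i < s + h) (hj : s ≤ j ∧ j < s + h) :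
    (pl t i j).1 ∈ Vs s h ∧ (pl t i j).2 ∈ Vs s h := by
  have a1 := ea_mem_Vs hi.1 hi.2
  have b1 := eb_mem_Vs hi.1 hi.2
  have a2 := ea_mem_Vs hj.1 hj.2
  have b2 := eb_mem_Vs hj.1 hj.2
  cases t
  · exact ⟨a1, b1⟩
  · exact ⟨add_mem a1 a2, b1⟩
  · exact ⟨add_mem a1 b2, b1⟩
  · exact ⟨add_mem a1 (add_mem a2 b2), b1⟩
  · exact ⟨a1, add_mem b1 a2⟩
  · exact ⟨a1, add_mem b1 b2⟩
  · exact ⟨a1, add_mem b1 (add_mem a2 b2)⟩
  · exact ⟨add_mem (add_mem a1 b1) a2, add_mem a2 b2⟩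

/-- every symplectic pair is the image of the standard one -/
theorem exists_frame {s h : ℕ} {u v : Lat} (hu : u ∈ Vs s h) (hv : v ∈ Vs s h)
    (huv : om u v = 1) : ∃ θ ∈ M s h, cj θ (eI s 1) = pr u v := by
  have hps : PartSymp s h 1 (fun _ => u) (fun _ => v) :=
    ⟨fun _ _ => hu, fun _ _ => hv, fun _ _ _ _ => om_self u, fun _ _ _ _ => om_self v,
      fun i hi j hj => by rw [huv, if_pos (by omega)]⟩
  obtain ⟨θ, hθ, h1⟩ := SP2 1 s h _ _ hps
  have h2 := h1 0 (by omega)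
  refine ⟨θ, hθ, ?_⟩
  rw [eI_one, cj_pr (M_PresOm hθ)]
  rw [add_zero] at h2
  rw [h2.1, h2.2]

theorem sg_range {s h : ℕ} {j : ℕ} (hj : j < h) : s ≤ sg s h j ∧ sg s h j < s + h := by
  unfold sg; split_ifs <;> omega

/-- the planes of `Slt` -/
theorem Slt_frame {s h : ℕ} (hh : 3 ≤ h) {t : Ty} {i j : ℕ} (hx : (t, i, j) ∈ Slt h) :
    ∃ θ ∈ M s h, cj θ (eI s 1) = plp t (sg s h i) (sg s h j) := by
  have inj : ∀ i j, i < h → j < h → i ≠ j → sg s h i ≠ sg s h j := by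
    intro i j hi hj hij
    unfold sg
    split_ifs <;> omega
  have hcase : (t = .E ∧ i < h ∧ j < h) ∨ (i < h ∧ j < h ∧ i ≠ j) := by
    rcases mem_Slt hx with ⟨i', hi', e⟩ | ⟨i', j', h1, h2, e⟩ | ⟨j', h1, h2, e⟩ | e | e | e
    · simp only [Prod.mk.injEq] at e
      obtain ⟨rfl, rfl, rfl⟩ := e
      exact Or.inl ⟨rfl, by omega, by omega⟩
    · right
      rcases e with e | e | e | e <;> simp only [Prod.mk.injEq] at e <;> obtain ⟨-, rfl, rfl⟩ := e <;>
        exact ⟨h2, by omega, by omega⟩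
    · right
      rcases e with e | e <;> simp only [Prod.mk.injEq] at e <;> obtain ⟨-, rfl, rfl⟩ := e <;>
        exact ⟨h2, by omega, by omega⟩
    · right; simp only [Prod.mk.injEq] at e; obtain ⟨-, rfl, rfl⟩ := e; omega
    · right; simp only [Prod.mk.injEq] at e; obtain ⟨-, rfl, rfl⟩ := e; omega
    · right; simp only [Prod.mk.injEq] at e; obtain ⟨-, rfl, rfl⟩ := e; omega
  rcases hcase with ⟨rfl, hi, hj⟩ | ⟨hi, hj, hij⟩
  · have h1 := sg_range (s := s) hi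
    refine exists_frame (ea_mem_Vs h1.1 h1.2) (eb_mem_Vs h1.1 h1.2) ?_
    show om (ea (sg s h i)) (eb (sg s h i)) = 1
    rw [om_ea_eb, if_pos rfl]
  · have h1 := pl_mem t (sg_range (s := s) hi) (sg_range (s := s) hj)
    exact exists_frame h1.1 h1.2 (om_pl t (inj i j hi hj hij))

end Pool.Agent.Torelli.PG
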