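import Pool.Agent.Torelli.PG.CertA
import Pool.Agent.Torelli.PG.CertB

/-!
# Torelli project, part PG: the lattice theorem

`G0 I` = planes supported on two handles of `I`; `pgl`: a closed family containing the
`2h²+h` planes of `Sl σ h` contains `cj θ (pr (ea s) (eb s))` for all `θ ∈ M s h`.
-/

set_option autoImplicit false

namespace Pool.Agent.Torelli.PG

open Pool.Agent.Torelli

/-- the eight types of planes supported on two handles -/
inductive Ty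
  | E | XA | XB | XC | YA | YB | YC | W

/-- the plane of type `t` on the handles `i`, `j` -/
noncomputable def pl : Ty → ℕ → ℕ → Lat × Lat
  | .E, i, _ => (ea i, eb i)
  | .XA, i, j => (ea i + ea j, eb i)
  | .XB, i, j => (ea i + eb j, eb i)
  | .XC, i, j => (ea i + (ea j + eb j), eb i)
  | .YA, i, j => (ea i, eb i + ea j)
  | .YB, i, j => (ea i, eb i + eb j)
  | .YC, i, j => (ea i, eb i + (ea j + eb j))
  | .W, i, j => (ea i + eb i + ea j, ea j + eb j)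

/-- the projection of type `t` on the handles `i`, `j` -/
noncomputable def plp (t : Ty) (i j : ℕ) : EV := pr (pl t i j).1 (pl t i j).2

/-- `ea` in coordinates -/
def a6 : Fin 3 → V6
  | 0 => ⟨1, 0, 0, 0, 0, 0⟩
  | 1 => ⟨0, 0, 1, 0, 0, 0⟩
  | 2 => ⟨0, 0, 0, 0, 1, 0⟩
/-- `eb` in coordinates -/
def b6 : Fin 3 → V6
  | 0 => ⟨0, 1, 0, 0, 0, 0⟩
  | 1 => ⟨0, 0, 0, 1, 0, 0⟩
  | 2 => ⟨0, 0, 0, 0, 0, 1⟩

/-- sum of vectors -/
def ad6 (x y : V6) : V6 :=
  ⟨x.x0 + y.x0, x.x1 + y.x1, x.x2 + y.x2, x.x3 + y.x3, x.x4 + y.x4, x.x5 + y.x5⟩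

/-- the plane of type `t` in coordinates -/
def pl6 : Ty → Fin 3 → Fin 3 → P6
  | .E, i, _ => (a6 i, b6 i)
  | .XA, i, j => (ad6 (a6 i) (a6 j), b6 i)
  | .XB, i, j => (ad6 (a6 i) (b6 j), b6 i)
  | .XC, i, j => (ad6 (a6 i) (ad6 (a6 j) (b6 j)), b6 i)
  | .YA, i, j => (a6 i, ad6 (b6 i) (a6 j))
  | .YB, i, j => (a6 i, ad6 (b6 i) (b6 j))
  | .YC, i, j => (a6 i, ad6 (b6 i) (ad6 (a6 j) (b6 j)))
  | .W, i, j => (ad6 (ad6 (a6 i) (b6 i)) (a6 j), ad6 (a6 j) (b6 j))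

theorem pl6_mem (t : Ty) (a b : Fin 3) (h : a ≠ b) : pl6 t a b ∈ G0list := by
  revert a b h
  cases t <;> decide

theorem em_ad6 (i j k : ℕ) (x y : V6) : em i j k (ad6 x y) = em i j k x + em i j k y := by
  simp only [em, ad6, add_smul]
  abel

/-- handle of index `a` -/
def hd (i j k : ℕ) : Fin 3 → ℕ
  | 0 => i
  | 1 => j
  | 2 => k

theorem em_a6 (i j k : ℕ) (a : Fin 3) : em i j k (a6 a) = ea (hd i j k a) := by
  fin_cases a <;> simp [em, a6, hd]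

theorem em_b6 (i j k : ℕ) (a : Fin 3) : em i j k (b6 a) = eb (hd i j k a) := by
  fin_cases a <;> simp [em, b6, hd]

theorem PR_pl6 (i j k : ℕ) (t : Ty) (a b : Fin 3) :
    PR i j k (pl6 t a b) = plp t (hd i j k a) (hd i j k b) := by
  cases t <;> simp only [PR, pl6, plp, pl, em_ad6, em_a6, em_b6]

/-- every member of `S3list` -/
theorem S3_cases (p : P6) (hp : p ∈ S3list) : p = pl6 .E 0 1 ∨ p = pl6 .E 1 0 ∨
    p = pl6 .XA 1 0 ∨ p = pl6 .YA 1 0 ∨ p = pl6 .XB 1 0 ∨ p = pl6 .YB 1 0 ∨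
    p = pl6 .XA 2 0 ∨ p = pl6 .YA 2 0 ∨ p = pl6 .XB 2 0 ∨ p = pl6 .YB 2 0 ∨
    p = pl6 .XA 2 1 ∨ p = pl6 .YA 2 1 ∨ p = pl6 .XB 2 1 ∨ p = pl6 .YB 2 1 ∨
    p = pl6 .XC 1 0 ∨ p = pl6 .YC 1 0 ∨ p = pl6 .XC 2 0 ∨ p = pl6 .YC 2 0 ∨
    p = pl6 .XC 0 1 ∨ p = pl6 .YC 0 1 ∨ p = pl6 .W 0 1 := by
  revert p
  decide

/-- conclusion of certificate A for three handles -/
theorem triple {C : Set EV} (hC : Closed C) {i j k : ℕ} (hij : i ≠ j) (hik : i ≠ k)
    (hjk : j ≠ k) (hE : E3 i j k ∈ C) (hS : ∀ p ∈ S3list, PR i j k p ∈ C) (t : Ty)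
    (a b : Fin 3) (hab : a ≠ b) : plp t (hd i j k a) (hd i j k b) ∈ C := by
  rw [← PR_pl6]
  exact (certA _ (pl6_mem t a b hab)).transport hC hij hik hjk hE hS

/-! ## The closure of all planes supported on two handles -/

/-- the smallest closed family containing all planes supported on two handles of `s..s+h-1` -/
inductive Cl (s h : ℕ) : EV → Prop
  | base (t : Ty) (i j : ℕ) : s ≤ i → i < s + h → s ≤ j → j < s + h → i ≠ j → Cl s h (plp t i j)
  | add (p q : EV) : Cl s h p → Cl s h q → p * q = 0 → q * p = 0 → Cl s h (p + q)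
  | sub (p q : EV) : Cl s h p → Cl s h q → p * q = q → q * p = q → Cl s h (p - q)

theorem Cl_closed (s h : ℕ) : Closed {p | Cl s h p} :=
  ⟨fun p q hp hq h1 h2 => Cl.add p q hp hq h1 h2, fun p q hp hq h1 h2 => Cl.sub p q hp hq h1 h2⟩

theorem Cl_le {s h : ℕ} {C : Set EV} (hC : Closed C)
    (hG : ∀ t i j, s ≤ i → i < s + h → s ≤ j → j < s + h → i ≠ j → plp t i j ∈ C) {p : EV}
    (hp : Cl s h p) : p ∈ C := by
  induction hp with
  | base t i j h1 h2 h3 h4 h5 => exact hG t i j h1 h2 h3 h4 h5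
  | add p q _ _ h1 h2 ihp ihq => exact hC.add p q ihp ihq h1 h2
  | sub p q _ _ h1 h2 ihp ihq => exact hC.sub p q ihp ihq h1 h2

theorem pr_orth_handles {i j : ℕ} (h : i ≠ j) : pr (ea i) (eb i) * pr (ea j) (eb j) = 0 := by
  refine pr_mul_pr ?_ ?_ ?_ ?_
  · rw [om_ea, ea_odd]
  · rw [om_ea, eb_odd, if_neg h]
  · rw [om_eb, ea_even, if_neg h, neg_zero]
  · rw [om_eb, eb_even, neg_zero]

theorem E3_mem {C : Set EV} (hC : Closed C) {i j k : ℕ} (hij : i ≠ j) (hik : i ≠ k)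
    (hjk : j ≠ k) (hi : pr (ea i) (eb i) ∈ C) (hj : pr (ea j) (eb j) ∈ C)
    (hk : pr (ea k) (eb k) ∈ C) : E3 i j k ∈ C := by
  have h1 := hC.add _ _ hi hj (pr_orth_handles hij) (pr_orth_handles hij.symm)
  refine hC.add _ _ h1 hk ?_ ?_
  · rw [add_mul, pr_orth_handles hik, pr_orth_handles hjk, add_zero]
  · rw [mul_add, pr_orth_handles hik.symm, pr_orth_handles hjk.symm, add_zero]

/-- conclusion of certificate B -/
theorem six_mem {s h : ℕ} {i j k : ℕ} (hi : s ≤ i ∧ i < s + h) (hj : s ≤ j ∧ j < s + h)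
    (hk : s ≤ k ∧ k < s + h) (hij : i ≠ j) (hik : i ≠ k) (hjk : j ≠ k) {g t : P6}
    (hg : g ∈ G0list) (ht : t ∈ six g) : Cl s h (PR i j k t) := by
  have hmem : ∀ (t : Ty) (a b : Fin 3), a ≠ b → Cl s h (plp t (hd i j k a) (hd i j k b)) := by
    intro t a b hab
    have hr : ∀ a, s ≤ hd i j k a ∧ hd i j k a < s + h := by
      intro a; fin_cases a
      · exact hi
      · exact hj
      · exact hk
    refine Cl.base t _ _ (hr a).1 (hr a).2 (hr b).1 (hr b).2 ?_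
    fin_cases a <;> fin_cases b <;> simp [hd] at hab ⊢ <;> omega
  have hE : Cl s h (E3 i j k) :=
    E3_mem (Cl_closed s h) hij hik hjk (hmem .E 0 1 (by decide)) (hmem .E 1 0 (by decide))
      (hmem .E 2 0 (by decide))
  refine (certB g t hg ht).transport (Cl_closed s h) hij hik hjk hE ?_
  intro p hp
  have : ∃ t a b, a ≠ b ∧ p = pl6 t a b := by
    have key : ∀ p ∈ G0list, p ∈ ([Ty.E, .XA, .XB, .XC, .YA, .YB, .YC, .W].flatMap fun t =>
        [pl6 t 0 1, pl6 t 0 2, pl6 t 1 0, pl6 t 1 2, pl6 t 2 0, pl6 t 2 1]) := by decide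
    have := key p hp
    simp only [List.mem_flatMap, List.mem_cons, List.not_mem_nil, or_false] at this
    obtain ⟨t, -, h⟩ := this
    rcases h with h | h | h | h | h | h
    · exact ⟨t, 0, 1, by decide, h⟩
    · exact ⟨t, 0, 2, by decide, h⟩
    · exact ⟨t, 1, 0, by decide, h⟩
    · exact ⟨t, 1, 2, by decide, h⟩
    · exact ⟨t, 2, 0, by decide, h⟩
    · exact ⟨t, 2, 1, by decide, h⟩
  obtain ⟨t, a, b, hab, rfl⟩ := this
  rw [PR_pl6]
  exact hmem t a b hab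

end Pool.Agent.Torelli.PG
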