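import Pool.Agent.Torelli.SP.Witt

/-!
# Torelli project, part PG: symplectic projections

`pr u v x = om x v • u - om x u • v`; `eI s k` = projection on the handles `s, ..., s+k-1`;
`cj φ p = actE φ * p * actE φ⁻¹`; `Closed C` = closure under orthogonal sums and differences.
-/

set_option autoImplicit false

namespace Pool.Agent.Torelli.PG

open Pool.Agent.Torelli

/-- the ring of endomorphisms of the homology -/
abbrev EV := AddMonoid.End Lat

/-- the projection `x ↦ om x v • u - om x u • v` -/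
noncomputable def pr (u v : Lat) : EV :=
  (zmultiplesHom Lat u).comp (om.flip v) - (zmultiplesHom Lat v).comp (om.flip u)

theorem pr_apply (u v x : Lat) : pr u v x = om x v • u - om x u • v := rfl

theorem EV_ext {p q : EV} (h : ∀ x, p x = q x) : p = q := DFunLike.ext _ _ h

theorem EV_mul (p q : EV) (x : Lat) : (p * q) x = p (q x) := rfl

theorem EV_add (p q : EV) (x : Lat) : (p + q) x = p x + q x := rfl

theorem EV_sub (p q : EV) (x : Lat) : (p - q) x = p x - q x := rfl

theorem EV_zero (x : Lat) : (0 : EV) x = 0 := rfl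

theorem pr_mul_pr {u v u' v' : Lat} (h1 : om u u' = 0) (h2 : om u v' = 0) (h3 : om v u' = 0)
    (h4 : om v v' = 0) : pr u v * pr u' v' = 0 := by
  refine EV_ext fun x => ?_
  have e1 : om u' v = 0 := by rw [om_swap, h3, neg_zero]
  have e2 : om u' u = 0 := by rw [om_swap, h1, neg_zero]
  have e3 : om v' v = 0 := by rw [om_swap, h4, neg_zero]
  have e4 : om v' u = 0 := by rw [om_swap, h2, neg_zero]
  rw [EV_mul, pr_apply u' v', map_sub, map_zsmul, map_zsmul, pr_apply, pr_apply, e1, e2, e3, e4,
    EV_zero]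
  simp

theorem pr_idem {u v : Lat} (h : om u v = 1) : pr u v * pr u v = pr u v := by
  refine EV_ext fun x => ?_
  have e : om v u = -1 := by rw [om_swap, h]
  rw [EV_mul, pr_apply u v x, map_sub, map_zsmul, map_zsmul, pr_apply, pr_apply, h, om_self,
    om_self, e]
  simp

/-- changing the basis of a plane -/
theorem pr_same {u v u' v' : Lat} (h : om u v = 1) (h' : om u' v' = 1)
    (e1 : u' = om u' v • u - om u' u • v) (e2 : v' = om v' v • u - om v' u • v) :
    pr u' v' = pr u v := by
  refine EV_ext fun x => ?_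
  set α := om u' v
  set β := -om u' u
  set γ := om v' v
  set δ := -om v' u
  have e1' : u' = α • u + β • v := by rw [e1]; simp only [β, neg_smul, sub_eq_add_neg]
  have e2' : v' = γ • u + δ • v := by rw [e2]; simp only [δ, neg_smul, sub_eq_add_neg]
  have hvu : om v u = -1 := by rw [om_swap, h]
  have det : α * δ - β * γ = 1 := by
    have := h'
    rw [e1', e2'] at this
    simp only [map_add, map_zsmul, AddMonoidHom.add_apply, AddMonoidHom.zsmul_apply, om_self, h,
      hvu, smul_eq_mul] at this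
    linarith
  rw [pr_apply, pr_apply, e1', e2']
  ext n
  simp only [map_add, map_zsmul, smul_eq_mul, Finsupp.sub_apply, Finsupp.smul_apply,
    Finsupp.add_apply]
  linear_combination (om x v * u n - om x u * v n) * det

/-- `act` as an element of the endomorphism ring -/
noncomputable def actE (φ : MulAut F) : EV := act φ

theorem actE_apply (φ : MulAut F) (x : Lat) : actE φ x = act φ x := rfl

theorem actE_mul (φ ψ : MulAut F) : actE (φ * ψ) = actE φ * actE ψ :=
  EV_ext fun x => act_mul φ ψ x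

theorem actE_one : actE 1 = 1 := EV_ext fun x => act_one x

/-- conjugation of an endomorphism by `act φ` -/
noncomputable def cj (φ : MulAut F) (p : EV) : EV := actE φ * p * actE φ⁻¹

theorem cj_apply (φ : MulAut F) (p : EV) (x : Lat) : cj φ p x = act φ (p (act φ⁻¹ x)) := rfl

theorem cj_add (φ : MulAut F) (p q : EV) : cj φ (p + q) = cj φ p + cj φ q := by
  simp only [cj, mul_add, add_mul]

theorem cj_sub (φ : MulAut F) (p q : EV) : cj φ (p - q) = cj φ p - cj φ q := by
  simp only [cj, mul_sub, sub_mul]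

theorem cj_mul (φ : MulAut F) (p q : EV) : cj φ (p * q) = cj φ p * cj φ q := by
  have e : actE φ⁻¹ * actE φ = 1 := by rw [← actE_mul, inv_mul_cancel, actE_one]
  calc cj φ (p * q) = actE φ * p * 1 * q * actE φ⁻¹ := by simp only [cj, mul_one, mul_assoc]
    _ = actE φ * p * (actE φ⁻¹ * actE φ) * q * actE φ⁻¹ := by rw [e]
    _ = _ := by simp only [cj, mul_assoc]

theorem cj_zero (φ : MulAut F) : cj φ 0 = 0 := by simp [cj]

theorem cj_one (φ : MulAut F) : cj φ 1 = 1 := by
  rw [cj, mul_one, ← actE_mul, mul_inv_cancel, actE_one]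

theorem cj_cj (φ ψ : MulAut F) (p : EV) : cj φ (cj ψ p) = cj (φ * ψ) p := by
  simp only [cj, mul_inv_rev, actE_mul, mul_assoc]

theorem one_cj (p : EV) : cj 1 p = p := by rw [cj, inv_one, actE_one, one_mul, mul_one]

theorem cj_inv_cj (φ : MulAut F) (p : EV) : cj φ⁻¹ (cj φ p) = p := by
  rw [cj_cj, inv_mul_cancel, one_cj]

theorem cj_cj_inv (φ : MulAut F) (p : EV) : cj φ (cj φ⁻¹ p) = p := by
  rw [cj_cj, mul_inv_cancel, one_cj]

theorem cj_sum {ι : Type*} (φ : MulAut F) (t : Finset ι) (p : ι → EV) :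
    cj φ (∑ i ∈ t, p i) = ∑ i ∈ t, cj φ (p i) := by
  simp only [cj, Finset.mul_sum, Finset.sum_mul]

theorem cj_pr {φ : MulAut F} (hφ : φ ∈ PresOm) (u v : Lat) :
    cj φ (pr u v) = pr (act φ u) (act φ v) := by
  refine EV_ext fun x => ?_
  have e : ∀ y : Lat, om (act φ⁻¹ x) y = om x (act φ y) := fun y => by
    rw [← hφ (act φ⁻¹ x) y, act_act_inv]
  rw [cj_apply, pr_apply, map_sub, map_zsmul, map_zsmul, e, e, pr_apply]

/-- families of endomorphisms closed under orthogonal sums and differences -/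
structure Closed (C : Set EV) : Prop where
  add : ∀ p q, p ∈ C → q ∈ C → p * q = 0 → q * p = 0 → p + q ∈ C
  sub : ∀ p q, p ∈ C → q ∈ C → p * q = q → q * p = q → p - q ∈ C

/-- the projection on the handles `s, ..., s+k-1` -/
noncomputable def eI (s k : ℕ) : EV := ∑ j ∈ Finset.range k, pr (ea (s + j)) (eb (s + j))

theorem eI_zero (s : ℕ) : eI s 0 = 0 := by simp [eI]

theorem eI_one (s : ℕ) : eI s 1 = pr (ea s) (eb s) := by simp [eI]

theorem eI_succ (s k : ℕ) : eI s (k + 1) = eI s k + pr (ea (s + k)) (eb (s + k)) := by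
  rw [eI, Finset.sum_range_succ]; rfl

theorem eI_add (s k l : ℕ) : eI s (k + l) = eI s k + eI (s + k) l := by
  rw [eI, Finset.sum_range_add, eI, eI]
  simp only [add_assoc]

theorem pr_eab (i : ℕ) (x : Lat) : pr (ea i) (eb i) x =
    x (2 * i) • ea i + x (2 * i + 1) • eb i := by
  rw [pr_apply, om_eb_right, om_ea_right, neg_smul, sub_neg_eq_add]

theorem eI_apply (s k : ℕ) (x : Lat) (n : ℕ) :
    (eI s k x) n = if 2 * s ≤ n ∧ n < 2 * (s + k) then x n else 0 := by
  induction k with
  | zero => rw [eI_zero, EV_zero, if_neg (by omega)]; rfl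
  | succ k ih =>
    rw [eI_succ, EV_add, Finsupp.add_apply, ih, pr_eab, Finsupp.add_apply, Finsupp.smul_apply,
      Finsupp.smul_apply, ea_apply, eb_apply]
    by_cases h1 : n = 2 * (s + k)
    · subst h1
      rw [if_neg (by omega), if_pos rfl, if_neg (by omega), if_pos (by omega)]; simp
    · by_cases h2 : n = 2 * (s + k) + 1
      · subst h2
        rw [if_neg (by omega), if_neg h1, if_pos rfl, if_pos (by omega)]; simp
      · rw [if_neg h1, if_neg h2]
        by_cases h3 : 2 * s ≤ n ∧ n < 2 * (s + k)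
        · rw [if_pos h3, if_pos (by omega)]; simp
        · rw [if_neg h3, if_neg (by omega)]; simp

theorem eI_mem_Vs (s k : ℕ) (x : Lat) : eI s k x ∈ Vs s k := fun n hn => by
  rw [eI_apply, if_neg (by omega)]

theorem eI_eq_self {s k : ℕ} {x : Lat} (hx : x ∈ Vs s k) : eI s k x = x := by
  ext n
  rw [eI_apply]
  by_cases h : 2 * s ≤ n ∧ n < 2 * (s + k)
  · rw [if_pos h]
  · rw [if_neg h, hx n (by omega)]

theorem eI_eq_zero {s k : ℕ} {x : Lat} (hx : ∀ n, 2 * s ≤ n → n < 2 * (s + k) → x n = 0) :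
    eI s k x = 0 := by
  ext n
  rw [eI_apply, Finsupp.zero_apply]
  by_cases h : 2 * s ≤ n ∧ n < 2 * (s + k)
  · rw [if_pos h, hx n h.1 h.2]
  · rw [if_neg h]

theorem mem_Vs_iff_eI {s k : ℕ} {x : Lat} : x ∈ Vs s k ↔ eI s k x = x :=
  ⟨eI_eq_self, fun h => h ▸ eI_mem_Vs s k x⟩

theorem eI_idem (s k : ℕ) : eI s k * eI s k = eI s k :=
  EV_ext fun x => by rw [EV_mul, eI_eq_self (eI_mem_Vs s k x)]

/-- `eI s k` commutes with `M s' k'` if the range of `M` is inside or disjoint. -/
theorem cj_eI {s k s' k' : ℕ} {φ : MulAut F} (hφ : φ ∈ M s' k')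
    (hd : (s ≤ s' ∧ s' + k' ≤ s + k) ∨ s' + k' ≤ s ∨ s + k ≤ s') : cj φ (eI s k) = eI s k := by
  -- enough: `eI (act φ y) = act φ (eI y)`
  have key : ∀ y, eI s k (act φ y) = act φ (eI s k y) := by
    intro y
    rcases hd with hd | hd
    · -- inside: write y = eI y + rest
      have e : y = eI s k y + (y - eI s k y) := by abel
      have hr : ∀ n, 2 * s ≤ n → n < 2 * (s + k) → (y - eI s k y) n = 0 := fun n h1 h2 => by
        rw [Finsupp.sub_apply, eI_apply, if_pos ⟨h1, h2⟩, sub_self]
      have hfix : act φ (y - eI s k y) = y - eI s k y :=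
        fix_of_outside hφ fun n h1 h2 => hr n (by omega) (by omega)
      have hin : act φ (eI s k y) ∈ Vs s k :=
        M_Vs (M_mono hd.1 hd.2 hφ) (eI_mem_Vs s k y)
      conv_lhs => rw [e, map_add, hfix, map_add, eI_eq_self hin, eI_eq_zero hr, add_zero]
    · have hfix : act φ (eI s k y) = eI s k y :=
        fix_of_outside hφ fun n h1 h2 => by rw [eI_apply, if_neg (by omega)]
      rw [hfix]
      ext n
      rw [eI_apply, eI_apply]
      by_cases h : 2 * s ≤ n ∧ n < 2 * (s + k)
      · have hn := M_PresV hφ y n (by omega)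
        rw [Finsupp.sub_apply] at hn
        rw [if_pos h, if_pos h]; omega
      · rw [if_neg h, if_neg h]
  refine EV_ext fun x => ?_
  rw [cj_apply, ← key, act_act_inv]

end Pool.Agent.Torelli.PG
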