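import Pool.Agent.Torelli.PG.Inv

/-!
# Torelli project, part PG: the `2h²+h` planes and the lattice theorem `pgl`
-/

set_option autoImplicit false

namespace Pool.Agent.Torelli.PG

open Pool.Agent.Torelli

/-- the handles `s+1, ..., s+h-1, s` in this order -/
def sg (s h j : ℕ) : ℕ := if j = h - 1 then s else s + 1 + j

/-- indices of the `2h²+h` planes -/
def Slt (h : ℕ) : List (Ty × ℕ × ℕ) :=
  (List.range (h - 1)).map (fun i => (Ty.E, i, 0)) ++
  (List.range h).flatMap (fun j => (List.range j).flatMap fun i =>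
    [(Ty.XA, j, i), (Ty.XB, j, i), (Ty.YA, j, i), (Ty.YB, j, i)]) ++
  (List.range (h - 1)).flatMap (fun j => [(Ty.XC, j + 1, 0), (Ty.YC, j + 1, 0)]) ++
  [(Ty.XC, 0, 1), (Ty.YC, 0, 1), (Ty.W, 0, 1)]

theorem length_flatMap_const {α β : Type*} (l : List α) (f : α → List β) (c : ℕ)
    (hf : ∀ x, (f x).length = c) : (l.flatMap f).length = c * l.length := by
  induction l with
  | nil => simp
  | cons x l ih => rw [List.flatMap_cons, List.length_append, ih, hf, List.length_cons]; ring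

theorem length_tri (h : ℕ) : ((List.range h).flatMap (fun j => (List.range j).flatMap fun i =>
    [(Ty.XA, j, i), (Ty.XB, j, i), (Ty.YA, j, i), (Ty.YB, j, i)])).length = 2 * h * (h - 1) := by
  induction h with
  | zero => simp
  | succ h ih =>
    rw [List.range_succ, List.flatMap_append, List.length_append, ih, List.flatMap_singleton,
      length_flatMap_const _ _ 4 (fun _ => rfl), List.length_range]
    cases h with
    | zero => rfl
    | succ h => simp only [Nat.add_sub_cancel]; ring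

theorem length_Slt {h : ℕ} (hh : 1 ≤ h) : (Slt h).length = 2 * h ^ 2 + h := by
  rw [Slt, List.length_append, List.length_append, List.length_append, List.length_map,
    List.length_range, length_tri, length_flatMap_const _ _ 2 (fun _ => rfl), List.length_range]
  obtain ⟨g, rfl⟩ : ∃ g, h = g + 1 := ⟨h - 1, by omega⟩
  simp only [Nat.add_sub_cancel, List.length_cons, List.length_nil]
  ring

theorem mem_Slt {h : ℕ} {x : Ty × ℕ × ℕ} (hx : x ∈ Slt h) :
    (∃ i, i < h - 1 ∧ x = (Ty.E, i, 0)) ∨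
    (∃ i j, i < j ∧ j < h ∧ (x = (Ty.XA, j, i) ∨ x = (Ty.XB, j, i) ∨ x = (Ty.YA, j, i) ∨
      x = (Ty.YB, j, i))) ∨
    (∃ j, 1 ≤ j ∧ j < h ∧ (x = (Ty.XC, j, 0) ∨ x = (Ty.YC, j, 0))) ∨
    x = (Ty.XC, 0, 1) ∨ x = (Ty.YC, 0, 1) ∨ x = (Ty.W, 0, 1) := by
  simp only [Slt, List.mem_append, List.mem_map, List.mem_range, List.mem_flatMap, List.mem_cons,
    List.not_mem_nil, or_false] at hx
  rcases hx with ((⟨i, hi, rfl⟩ | ⟨j, hj, i, hi, h1⟩) | ⟨j, hj, h1⟩) | h1
  · exact Or.inl ⟨i, hi, rfl⟩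
  · exact Or.inr (Or.inl ⟨i, j, hi, hj, h1⟩)
  · exact Or.inr (Or.inr (Or.inl ⟨j + 1, by omega, by omega, h1⟩))
  · exact Or.inr (Or.inr (Or.inr h1))

theorem Slt_E {h i : ℕ} (hi : i < h - 1) : (Ty.E, i, 0) ∈ Slt h := by
  simp only [Slt, List.mem_append, List.mem_map, List.mem_range]
  exact Or.inl (Or.inl (Or.inl ⟨i, hi, rfl⟩))

theorem Slt_two {h i j : ℕ} (hi : i < j) (hj : j < h) {t : Ty}
    (ht : t = .XA ∨ t = .XB ∨ t = .YA ∨ t = .YB) : (t, j, i) ∈ Slt h := by
  simp only [Slt, List.mem_append, List.mem_flatMap, List.mem_range]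
  refine Or.inl (Or.inl (Or.inr ⟨j, hj, i, hi, ?_⟩))
  rcases ht with rfl | rfl | rfl | rfl <;> simp

theorem Slt_C {h j : ℕ} (h1 : 1 ≤ j) (hj : j < h) {t : Ty} (ht : t = .XC ∨ t = .YC) :
    (t, j, 0) ∈ Slt h := by
  simp only [Slt, List.mem_append, List.mem_flatMap, List.mem_range]
  refine Or.inl (Or.inr ⟨j - 1, by omega, ?_⟩)
  have e : j - 1 + 1 = j := by omega
  rcases ht with rfl | rfl <;> simp [e]

theorem Slt_01 {h : ℕ} {t : Ty} (ht : t = .XC ∨ t = .YC ∨ t = .W) : (t, 0, 1) ∈ Slt h := by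
  simp only [Slt, List.mem_append]
  refine Or.inr ?_
  rcases ht with rfl | rfl | rfl <;> simp

theorem plp_E (i j : ℕ) : plp .E i j = pr (ea i) (eb i) := rfl

theorem eI_succ' (s k : ℕ) : eI s (k + 1) = pr (ea s) (eb s) + eI (s + 1) k := by
  rw [add_comm k 1, eI_add, eI_one]

theorem eI_mem {C : Set EV} (hC : Closed C) {s k : ℕ} (h0 : 1 ≤ k)
    (h1 : ∀ i, s ≤ i → i < s + k → pr (ea i) (eb i) ∈ C) : eI s k ∈ C := by
  induction k with
  | zero => omega
  | succ k ih =>
    by_cases hk : k = 0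
    · subst hk
      rw [eI_one]; exact h1 s le_rfl (by omega)
    · rw [eI_succ]
      refine hC.add _ _ (ih (by omega) fun i h2 h3 => h1 i h2 (by omega))
        (h1 _ (by omega) (by omega)) ?_ ?_
      · rw [eI, Finset.sum_mul]
        refine Finset.sum_eq_zero fun j hj => ?_
        have := Finset.mem_range.mp hj
        exact pr_orth_handles (by omega)
      · rw [eI, Finset.mul_sum]
        refine Finset.sum_eq_zero fun j hj => ?_
        have := Finset.mem_range.mp hj
        exact pr_orth_handles (by omega)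

/-- all planes on two handles are in `C` -/
theorem all_two {C : Set EV} (hC : Closed C) {s h : ℕ} (hh : 3 ≤ h) (hE : eI s h ∈ C)
    (hS : ∀ t i j, (t, i, j) ∈ Slt h → plp t (sg s h i) (sg s h j) ∈ C) (t : Ty) {p q : ℕ}
    (hp : s ≤ p ∧ p < s + h) (hq : s ≤ q ∧ q < s + h) (hpq : p ≠ q) : plp t p q ∈ C := by
  have inj : ∀ i j, i < h → j < h → i ≠ j → sg s h i ≠ sg s h j := by
    intro i j hi hj hij
    unfold sg
    split_ifs <;> omega
  -- single handles
  have hE1 : eI (s + 1) (h - 1) ∈ C := by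
    refine eI_mem hC (by omega) fun i h1 h2 => ?_
    have h3 := hS _ _ _ (Slt_E (h := h) (i := i - s - 1) (by omega))
    have e : sg s h (i - s - 1) = i := by
      unfold sg; rw [if_neg (by omega)]; omega
    rw [e, plp_E] at h3
    exact h3
  have hs : pr (ea s) (eb s) ∈ C := by
    have e : eI s h = pr (ea s) (eb s) + eI (s + 1) (h - 1) := by
      rw [← eI_succ']; congr 1; omega
    have e' : pr (ea s) (eb s) = eI s h - eI (s + 1) (h - 1) := by rw [e]; abel
    have o1 : pr (ea s) (eb s) * eI (s + 1) (h - 1) = 0 := by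
      rw [eI, Finset.mul_sum]
      exact Finset.sum_eq_zero fun j _ => pr_orth_handles (by omega)
    have o2 : eI (s + 1) (h - 1) * pr (ea s) (eb s) = 0 := by
      rw [eI, Finset.sum_mul]
      exact Finset.sum_eq_zero fun j _ => pr_orth_handles (by omega)
    rw [e']
    refine hC.sub _ _ hE hE1 ?_ ?_
    · rw [e, add_mul, o1, zero_add, eI_idem]
    · rw [e, mul_add, o2, zero_add, eI_idem]
  have m1 : ∀ i, i < h → ∀ k, plp .E (sg s h i) k ∈ C := by
    intro i hi k
    by_cases h1 : i = h - 1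
    · have e : sg s h i = s := by unfold sg; rw [if_pos h1]
      rw [e, plp_E]; exact hs
    · have h2 := hS _ _ _ (Slt_E (h := h) (i := i) (by omega))
      rw [plp_E] at h2 ⊢
      exact h2
  have m2 : ∀ i j, i < j → j < h → ∀ t, (t = .XA ∨ t = .XB ∨ t = .YA ∨ t = .YB) →
      plp t (sg s h j) (sg s h i) ∈ C := fun i j hi hj t ht => hS t j i (Slt_two hi hj ht)
  have m3 : ∀ j, 1 ≤ j → j < h → ∀ t, (t = .XC ∨ t = .YC) → plp t (sg s h j) (sg s h 0) ∈ C :=
    fun j h1 hj t ht => hS t j 0 (Slt_C h1 hj ht)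
  -- triples
  have tr : ∀ i j, 1 ≤ i → i < j → j < h →
      (∀ t, (t = .XC ∨ t = .YC ∨ t = .W) → plp t (sg s h 0) (sg s h i) ∈ C) →
      ∀ t a b, a ≠ b → plp t (hd (sg s h 0) (sg s h i) (sg s h j) a)
        (hd (sg s h 0) (sg s h i) (sg s h j) b) ∈ C := by
    intro i j hi hij hj hsp t a b hab
    have d1 := inj 0 i (by omega) (by omega) (by omega)
    have d2 := inj 0 j (by omega) (by omega) (by omega)
    have d3 := inj i j (by omega) (by omega) (by omega)
    have n1 : ∀ i, i < h → pr (ea (sg s h i)) (eb (sg s h i)) ∈ C := fun i hi => by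
      have := m1 i hi 0
      rwa [plp_E] at this
    refine triple hC d1 d2 d3 (E3_mem hC d1 d2 d3 (n1 0 (by omega)) (n1 i (by omega))
      (n1 j hj)) ?_ t a b hab
    intro p hp
    rcases S3_cases p hp with rfl | rfl | rfl | rfl | rfl | rfl | rfl | rfl | rfl | rfl | rfl |
      rfl | rfl | rfl | rfl | rfl | rfl | rfl | rfl | rfl | rfl <;> rw [PR_pl6]
    · exact m1 0 (by omega) (sg s h i)
    · exact m1 i (by omega) (sg s h 0)
    · exact m2 0 i (by omega) (by omega) _ (by simp)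
    · exact m2 0 i (by omega) (by omega) _ (by simp)
    · exact m2 0 i (by omega) (by omega) _ (by simp)
    · exact m2 0 i (by omega) (by omega) _ (by simp)
    · exact m2 0 j (by omega) (by omega) _ (by simp)
    · exact m2 0 j (by omega) (by omega) _ (by simp)
    · exact m2 0 j (by omega) (by omega) _ (by simp)
    · exact m2 0 j (by omega) (by omega) _ (by simp)
    · exact m2 i j hij hj _ (by simp)
    · exact m2 i j hij hj _ (by simp)
    · exact m2 i j hij hj _ (by simp)
    · exact m2 i j hij hj _ (by simp)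
    · exact m3 i hi (by omega) _ (by simp)
    · exact m3 i hi (by omega) _ (by simp)
    · exact m3 j (by omega) hj _ (by simp)
    · exact m3 j (by omega) hj _ (by simp)
    · exact hsp _ (by simp)
    · exact hsp _ (by simp)
    · exact hsp _ (by simp)
  have tr1 : ∀ j, 2 ≤ j → j < h → ∀ t a b, a ≠ b →
      plp t (hd (sg s h 0) (sg s h 1) (sg s h j) a)
        (hd (sg s h 0) (sg s h 1) (sg s h j) b) ∈ C := fun j h2 hj =>
    tr 1 j le_rfl (by omega) hj fun t ht => hS t 0 1 (Slt_01 ht)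
  have tr2 : ∀ i j, 1 ≤ i → i < j → j < h → ∀ t a b, a ≠ b →
      plp t (hd (sg s h 0) (sg s h i) (sg s h j) a)
        (hd (sg s h 0) (sg s h i) (sg s h j) b) ∈ C := by
    intro i j hi hij hj
    by_cases h1 : i = 1
    · subst h1; exact tr1 j (by omega) hj
    · exact tr i j hi hij hj fun t _ => tr1 i (by omega) (by omega) t 0 2 (by decide)
  have lt : ∀ i j, i < j → j < h → ∀ t, plp t (sg s h i) (sg s h j) ∈ C ∧
      plp t (sg s h j) (sg s h i) ∈ C := by
    intro i j hij hj t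
    by_cases h0 : i = 0
    · subst h0
      by_cases h1 : j = 1
      · subst h1
        exact ⟨tr1 2 le_rfl (by omega) t 0 1 (by decide), tr1 2 le_rfl (by omega) t 1 0 (by decide)⟩
      · exact ⟨tr1 j (by omega) hj t 0 2 (by decide), tr1 j (by omega) hj t 2 0 (by decide)⟩
    · exact ⟨tr2 i j (by omega) hij hj t 1 2 (by decide), tr2 i j (by omega) hij hj t 2 1 (by decide)⟩
  have surj : ∀ p, s ≤ p ∧ p < s + h → ∃ i, i < h ∧ sg s h i = p := by
    intro p hp
    by_cases h1 : p = s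
    · exact ⟨h - 1, by omega, by unfold sg; rw [if_pos rfl, h1]⟩
    · exact ⟨p - s - 1, by omega, by unfold sg; rw [if_neg (by omega)]; omega⟩
  obtain ⟨i, hi, rfl⟩ := surj p hp
  obtain ⟨j, hj, rfl⟩ := surj q hq
  rcases lt_trichotomy i j with h1 | h1 | h1
  · exact (lt i j h1 hj t).1
  · exact absurd (by rw [h1]) hpq
  · exact (lt j i h1 hi t).2

/-- **The lattice theorem.** -/
theorem pgl {C : Set EV} (hC : Closed C) {s h : ℕ} (hh : 3 ≤ h) (hE : eI s h ∈ C)
    (hS : ∀ t i j, (t, i, j) ∈ Slt h → plp t (sg s h i) (sg s h j) ∈ C) {θ : MulAut F}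
    (hθ : θ ∈ M s h) : cj θ (pr (ea s) (eb s)) ∈ C := by
  have h0 : Cl s h (plp .E s (s + 1)) :=
    Cl.base .E s (s + 1) le_rfl (by omega) (by omega) (by omega) (by omega)
  exact Cl_le hC (fun t i j h1 h2 h3 h4 h5 => all_two hC hh hE hS t ⟨h1, h2⟩ ⟨h3, h4⟩ h5)
    (Cl_M hh hθ h0)

end Pool.Agent.Torelli.PG
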